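import Pool.Agent.K7.H29.EM.Hig
import Mathlib.Algebra.Colimit.DirectLimit
import Mathlib.Algebra.Category.Grp.Basic

/-!
# Embeddings in binate groups
-/

set_option autoImplicit false

namespace Pool.Agent.K7.H29.EM

open Monoid Group

section seq

variable {T : ℕ → Type} [∀ n, Group (T n)] (s : ∀ n, T n →* T (n + 1))

/-- the maps of the sequence -/
def sq (m n : ℕ) (h : m ≤ n) : T m →* T n :=
  Nat.leRecOn (C := fun k => T m →* T k) h (fun {k} φ => (s k).comp φ) (MonoidHom.id _)

theorem sq_self (m : ℕ) : sq s m m le_rfl = MonoidHom.id _ := Nat.leRecOn_self _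

theorem sq_succ (m n : ℕ) (h : m ≤ n) : sq s m (n + 1) (h.trans (Nat.le_succ n)) =
    (s n).comp (sq s m n h) := Nat.leRecOn_succ h _

theorem sq_comp (k m n : ℕ) (h : k ≤ m) (h' : m ≤ n) :
    (sq s m n h').comp (sq s k m h) = sq s k n (h.trans h') := by
  induction n, h' using Nat.le_induction with
  | base => rw [sq_self]; rfl
  | succ n hn ih =>
    rw [sq_succ s m n hn, MonoidHom.comp_assoc, ih, ← sq_succ s k n (h.trans hn)]

theorem sq_inj (hs : ∀ n, Function.Injective (s n)) (m n : ℕ) (h : m ≤ n) :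
    Function.Injective (sq s m n h) := by
  induction n, h using Nat.le_induction with
  | base => rw [sq_self]; exact Function.injective_id
  | succ n hn ih => rw [sq_succ s m n hn]; exact (hs n).comp ih

instance sq_dir : DirectedSystem T (fun m n h => ⇑(sq s m n h)) where
  map_self m x := by rw [sq_self]; rfl
  map_map k m n h h' x := by rw [← sq_comp s n m k h h']; rfl

theorem seq_limit (hs : ∀ n, Function.Injective (s n)) :
    ∃ (L : Type) (_ : Group L) (g : ∀ n, T n →* L), (∀ n, Function.Injective (g n)) ∧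
      (∀ n x, g (n + 1) (s n x) = g n x) ∧ ∀ y, ∃ n x, g n x = y := by
  let L := DirectLimit T (fun m n (h : m ≤ n) => sq s m n h)
  let g : ∀ n, T n →* L := fun n =>
    { toFun := fun x => ⟦⟨n, x⟩⟧
      map_one' := (DirectLimit.one_def n).symm
      map_mul' := fun x y => (DirectLimit.mul_def n x y).symm }
  refine ⟨L, inferInstance, g, ?_, ?_, ?_⟩
  · intro n x y hxy
    have h := Quotient.exact hxy
    obtain ⟨k, h1, h2, h3⟩ := h
    exact sq_inj s hs n k h1 h3
  · intro n x
    apply Quotient.sound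
    refine ⟨n + 1, le_rfl, Nat.le_succ n, ?_⟩
    show sq s (n + 1) (n + 1) le_rfl (s n x) = sq s n (n + 1) (Nat.le_succ n) x
    rw [sq_self, sq_succ s n n le_rfl, sq_self]
    rfl
  · intro y
    obtain ⟨⟨n, x⟩, rfl⟩ := Quotient.exists_rep y
    exact ⟨n, x, rfl⟩

end seq

section bin

variable (G : Type) [Group G]

/-- the diagonal -/
theorem dg_inj : Function.Injective ((MonoidHom.id G).prod (MonoidHom.id G)) := fun _ _ h =>
  congrArg Prod.fst h

theorem ir_inj : Function.Injective (MonoidHom.inr G G) := fun _ _ h => congrArg Prod.snd h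

/-- one step: the HNN extension of `G × G` with `t (1, h) t⁻¹ = (h, h)` -/
abbrev B1 : Type := HX (ir_inj G) (dg_inj G)

/-- the embedding -/
noncomputable def bs : G →* B1 G := HNNExtension.of.comp (MonoidHom.inl G G)

theorem bs_inj : Function.Injective (bs G) :=
  (HNNExtension.of_injective _).comp (fun _ _ h => congrArg Prod.fst h)

theorem bs_eq (x : G) : bs G x = (HNNExtension.t : B1 G) * HNNExtension.of (1, x) *
    (HNNExtension.t)⁻¹ * (HNNExtension.of (1, x))⁻¹ := by
  have h := t_i (ir_inj G) (dg_inj G) x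
  have h1 : (MonoidHom.inr G G) x = (1, x) := rfl
  rw [h1] at h
  rw [h, mul_inv_cancel_right, ← map_inv, ← map_mul]
  show HNNExtension.of (x, 1) = HNNExtension.of ((x, x) * (1, x)⁻¹)
  congr 1
  ext
  · show x = x * 1⁻¹
    simp
  · show 1 = x * x⁻¹
    simp

variable {C : ∀ (G : Type) [Group G], Prop}

theorem C_B1 (hC : Cl C) (hG : C G) : C (B1 G) := by
  refine hC.hnn _ _ _ _ _ (hx (ir_inj G) (dg_inj G) (MonoidHom.snd G G) 1 (fun x => by
      rw [one_mul, mul_one]
      rfl)) ?_ (hC.prod _ _ hG hG) hG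
  rintro _ ⟨x, rfl⟩ hx1
  rw [hx_of] at hx1
  exact Prod.ext rfl hx1

/-- the tower -/
noncomputable def tow : ℕ → GrpCat.{0}
  | 0 => GrpCat.of G
  | n + 1 => GrpCat.of (B1 (tow n))

theorem C_tow (hC : Cl C) (hG : C G) (n : ℕ) : C (tow G n) := by
  induction n with
  | zero => exact hG
  | succ n ih => exact C_B1 (tow G n) hC ih

/-- Berrick's binate groups: for each finitely generated subgroup `H` there are a homomorphism `φ` from
`H` to `L` and an element `u` of `L` with `h = u (φ h) u⁻¹ (φ h)⁻¹` for all `h` in `H` -/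
def Binate (L : Type) [Group L] : Prop :=
  ∀ H : Subgroup L, H.FG → ∃ (φ : H →* L) (u : L), ∀ h : H, (h : L) = u * φ h * u⁻¹ * (φ h)⁻¹

theorem embed_binate (hC : Cl C) (hG : C G) :
    ∃ (L : Type) (_ : Group L) (f : G →* L), C L ∧ Function.Injective f ∧ Binate L := by
  obtain ⟨L, iL, g, hg, hgs, hgL⟩ := seq_limit (T := fun n => tow G n)
    (fun n => bs (tow G n)) (fun n => bs_inj (tow G n))
  have hmono : Monotone fun n => (g n).range := by
    refine monotone_nat_of_le_succ fun n => ?_
    rintro _ ⟨x, rfl⟩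
    exact ⟨bs (tow G n) x, hgs n x⟩
  refine ⟨L, iL, g 0, ?_, hg 0, ?_⟩
  · refine hC.chain L (fun n => (g n).range) hmono ?_ ?_
    · intro y
      obtain ⟨n, x, rfl⟩ := hgL y
      exact ⟨n, x, rfl⟩
    · intro n
      exact hC.equiv (MonoidHom.ofInjective (hg n)) (C_tow G hC hG n)
  · intro H hH
    obtain ⟨n, hn⟩ : ∃ n, H ≤ (g n).range := by
      obtain ⟨S, rfl⟩ := hH
      have h1 : ∃ n, ∀ x ∈ S, x ∈ (g n).range := by
        classical
        induction S using Finset.induction_on with
        | empty => exact ⟨0, by simp⟩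
        | insert a S _ ih =>
          obtain ⟨n, hn⟩ := ih
          obtain ⟨m, x, rfl⟩ := hgL a
          refine ⟨max m n, fun y hy => ?_⟩
          rcases Finset.mem_insert.1 hy with rfl | hy
          · exact hmono (le_max_left m n) ⟨x, rfl⟩
          · exact hmono (le_max_right m n) (hn y hy)
      obtain ⟨n, hn⟩ := h1
      exact ⟨n, (Subgroup.closure_le _).2 hn⟩
    let e : H →* tow G n := (MonoidHom.ofInjective (hg n)).symm.toMonoidHom.comp
      (Subgroup.inclusion hn)
    have he : ∀ h : H, g n (e h) = h := fun h =>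
      MonoidHom.apply_ofInjective_symm (hg n) (Subgroup.inclusion hn h)
    let j : tow G n →* tow G (n + 1) :=
      (HNNExtension.of (φ := iso (ir_inj (tow G n)) (dg_inj (tow G n)))).comp
        (MonoidHom.inr (tow G n) (tow G n))
    refine ⟨(g (n + 1)).comp (j.comp e), g (n + 1) (HNNExtension.t : B1 (tow G n)), fun h => ?_⟩
    have h1 := bs_eq (tow G n) (e h)
    refine ((hgs n (e h)).trans (he h)).symm.trans ((congrArg (g (n + 1)) h1).trans ?_)
    let t' : tow G (n + 1) := (HNNExtension.t : B1 (tow G n))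
    show g (n + 1) (t' * j (e h) * t'⁻¹ * (j (e h))⁻¹) =
      g (n + 1) t' * g (n + 1) (j (e h)) * (g (n + 1) t')⁻¹ * (g (n + 1) (j (e h)))⁻¹
    rw [map_mul, map_mul, map_mul, map_inv, map_inv]

end bin

end Pool.Agent.K7.H29.EM
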