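import Pool.Agent.K7.H29.GA.Ab
import Pool.Agent.K7.H29.GP.Tors
import Pool.Agent.K7.H29.GP.Fin

/-!
# The closure properties which are used, and torsion-free groups
-/

set_option autoImplicit false

namespace Pool.Agent.K7.H29.EM

open Pool.Agent.Y110.FJ Pool.Agent.R684.FP
open Pool.Agent.K7.H87.FJ3 (hnn_closed)
open Pool.Agent.Helper270.Tree (TreeAct)
open Pool.Agent.Helper270.HNN (Vert vt graph treeAct one_orbit stab_one stab_edge exists_vt smul_vt)
open Monoid

/-- the closure properties which are used -/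
structure Cl (D : ∀ (G : Type) [Group G], Prop) : Prop where
  inj : ∀ (G H : Type) [Group G] [Group H] (f : G →* H), Function.Injective f → D H → D G
  prod : ∀ (G H : Type) [Group G] [Group H], D G → D H → D (G × H)
  coprod : ∀ (G H : Type) [Group G] [Group H], D G → D H → D (Coprod G H)
  coprodI : ∀ (I : Type) (A : I → Type) [∀ i, Group (A i)], (∀ i, D (A i)) → D (CoprodI A)
  fbc : ∀ (X : Type) (α : MulAut (FreeGroup X)),
    D (FreeGroup X ⋊[zpowersHom (MulAut (FreeGroup X)) α] Multiplicative ℤ)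
  hnn : ∀ (G Q : Type) [Group G] [Group Q] (A B : Subgroup G) (φ : A ≃* B)
    (f : HNNExtension G A B φ →* Q), (∀ a ∈ A, f (HNNExtension.of a) = 1 → a = 1) → D G → D Q →
    D (HNNExtension G A B φ)
  chain : ∀ (G : Type) [Group G] (K : ℕ → Subgroup G), Monotone K → (∀ g, ∃ n, g ∈ K n) →
    (∀ n, D (K n)) → D G

variable {C : ∀ (G : Type) [Group G], Prop}

theorem cl_of (hC : ClosedE C) (hFb : FbC C) : Cl C where
  inj := hC.base.of_injective
  prod := hC.base.prod
  coprod := hC.base.coprod
  coprodI := fun _ A _ h => Pool.Agent.K7.H29.GA.C_coprodI hC hFb A h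
  fbc := hFb
  hnn := fun _ _ _ _ _ _ φ f hf hG hQ => hnn_closed hC hFb φ f hf hG hQ
  chain := fun G _ K hK hg h => Pool.Agent.Y430.SS.of_directed hC.base G ℕ
    (fun i j => ⟨max i j, le_max_left _ _, le_max_right _ _⟩) K hK hg h

/-- torsion-free groups -/
def TF (G : Type) [Group G] : Prop := ∀ x : G, IsOfFinOrder x → x = 1

theorem fin_map {G H : Type} [Group G] [Group H] (f : G →* H) {x : G} (hx : IsOfFinOrder x) :
    IsOfFinOrder (f x) := by
  obtain ⟨n, hn, h⟩ := isOfFinOrder_iff_pow_eq_one.1 hx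
  exact isOfFinOrder_iff_pow_eq_one.2 ⟨n, hn, by rw [← map_pow, h, map_one]⟩

theorem fin_of_inj {G H : Type} [Group G] [Group H] (f : G →* H) (hf : Function.Injective f) {x : G}
    (hx : IsOfFinOrder (f x)) : IsOfFinOrder x := by
  obtain ⟨n, hn, h⟩ := isOfFinOrder_iff_pow_eq_one.1 hx
  exact isOfFinOrder_iff_pow_eq_one.2 ⟨n, hn, hf (by rw [map_pow, h, map_one])⟩

theorem TF_inj {G H : Type} [Group G] [Group H] (f : G →* H) (hf : Function.Injective f)
    (hH : TF H) : TF G := fun x hx => hf (by rw [map_one]; exact hH _ (fin_map f hx))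

theorem TF_prod {G H : Type} [Group G] [Group H] (hG : TF G) (hH : TF H) : TF (G × H) :=
  fun _ hx => Prod.ext (hG _ (fin_map (MonoidHom.fst G H) hx)) (hH _ (fin_map (MonoidHom.snd G H) hx))

theorem TF_coprodI {I : Type} {A : I → Type} [∀ i, Group (A i)] (h : ∀ i, TF (A i)) :
    TF (CoprodI A) := by
  intro x hx
  by_contra hx1
  obtain ⟨i, m, k, hm, rfl⟩ := Pool.Agent.K7.H29.GP.ell_of_fin hx1 hx
  apply hm
  apply h i
  apply fin_of_inj _ (CoprodI.of_injective i)
  have h1 := fin_map (MulAut.conj k⁻¹).toMonoidHom hx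
  have h2 : (MulAut.conj k⁻¹).toMonoidHom (k * CoprodI.of m * k⁻¹) = CoprodI.of m := by
    show k⁻¹ * (k * CoprodI.of m * k⁻¹) * k⁻¹⁻¹ = CoprodI.of m
    group
  rwa [h2] at h1

/-- two groups as a family -/
def two (G H : Type) : Bool → Type := fun b => cond b G H

instance two_group (G H : Type) [Group G] [Group H] : ∀ b, Group (two G H b)
  | true => inferInstanceAs (Group G)
  | false => inferInstanceAs (Group H)

theorem TF_coprod {G H : Type} [Group G] [Group H] (hG : TF G) (hH : TF H) :
    TF (Coprod G H) := by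
  let f : Coprod G H →* CoprodI (two G H) := Coprod.lift
    (CoprodI.of (M := two G H) (i := true)) (CoprodI.of (M := two G H) (i := false))
  let g : CoprodI (two G H) →* Coprod G H := CoprodI.lift fun b =>
    match b with
    | true => (Coprod.inl : G →* Coprod G H)
    | false => (Coprod.inr : H →* Coprod G H)
  have h1 : g.comp f = MonoidHom.id _ := by
    apply Coprod.hom_ext
    · ext x
      show g (f (Coprod.inl x)) = Coprod.inl x
      rw [show f (Coprod.inl x) = CoprodI.of (M := two G H) (i := true) x from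
        Coprod.lift_apply_inl _ _ _]
      exact CoprodI.lift_of (M := two G H) (N := Coprod G H) (i := true) _ x
    · ext x
      show g (f (Coprod.inr x)) = Coprod.inr x
      rw [show f (Coprod.inr x) = CoprodI.of (M := two G H) (i := false) x from
        Coprod.lift_apply_inr _ _ _]
      exact CoprodI.lift_of (M := two G H) (N := Coprod G H) (i := false) _ x
  have h2 : Function.Injective f := by
    intro x y hxy
    have h3 : ∀ z, g (f z) = z := fun z => DFunLike.congr_fun h1 z
    rw [← h3 x, ← h3 y, hxy]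
  refine TF_inj f h2 (TF_coprodI fun b => ?_)
  cases b
  · exact hH
  · exact hG

theorem TF_fbc (X : Type) (α : MulAut (FreeGroup X)) :
    TF (FreeGroup X ⋊[zpowersHom (MulAut (FreeGroup X)) α] Multiplicative ℤ) := by
  intro x hx
  have h1 : x.right = 1 := by
    have h2 := fin_map (SemidirectProduct.rightHom) hx
    obtain ⟨n, hn, h⟩ := isOfFinOrder_iff_pow_eq_one.1 h2
    have h3 : Multiplicative.toAdd (x.right) = 0 := by
      have h4 : n • Multiplicative.toAdd (x.right) = 0 := by
        rw [← toAdd_pow]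
        exact congrArg Multiplicative.toAdd h
      rcases smul_eq_zero.1 h4 with h5 | h5
      · omega
      · exact h5
    exact h3
  have h2 : x = SemidirectProduct.inl x.left := SemidirectProduct.ext rfl h1
  rw [h2] at hx ⊢
  rw [Pool.Agent.K7.H29.GP.free_torsion (fin_of_inj _ SemidirectProduct.inl_injective hx), map_one]

theorem TF_hnn {G : Type} [Group G] {A B : Subgroup G} (φ : A ≃* B) (hG : TF G) :
    TF (HNNExtension G A B φ) := by
  intro x hx
  obtain ⟨v, hv⟩ : ∃ v : Vert φ, x • v = v := by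
    by_contra hno
    push Not at hno
    obtain ⟨L, l, hL⟩ := (treeAct (φ := φ)).exists_axis hno
    obtain ⟨n, hn, h⟩ := isOfFinOrder_iff_pow_eq_one.1 hx
    have h1 := hL.smul_zpow (n : ℤ) 0
    rw [zpow_natCast, h, one_smul] at h1
    have h2 := hL.line.injective (treeAct (φ := φ)).isTree h1
    have h3 : (n : ℤ) * l = 0 := by linarith
    rcases mul_eq_zero.1 h3 with h4 | h4
    · omega
    · have := hL.pos
      omega
  obtain ⟨g, rfl⟩ := exists_vt v
  have h1 : (g⁻¹ * x * g) • (vt 1 : Vert φ) = vt 1 := by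
    have h2 : g • (vt 1 : Vert φ) = vt g := by rw [smul_vt, mul_one]
    rw [mul_smul, mul_smul, h2, hv, ← h2, inv_smul_smul]
  obtain ⟨y, hy⟩ := (stab_one (φ := φ) _).1 h1
  have h2 : IsOfFinOrder (HNNExtension.of y : HNNExtension G A B φ) := by
    rw [← hy]
    have h3 := fin_map (MulAut.conj g⁻¹).toMonoidHom hx
    have h4 : (MulAut.conj g⁻¹).toMonoidHom x = g⁻¹ * x * g := by
      show g⁻¹ * x * g⁻¹⁻¹ = _
      rw [inv_inv]
    rwa [h4] at h3
  have h3 : y = 1 := hG y (fin_of_inj _ (HNNExtension.of_injective φ) h2)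
  rw [h3, map_one] at hy
  have h4 : x = g * (g⁻¹ * x * g) * g⁻¹ := by group
  rw [h4, hy]
  group

theorem TF_chain {G : Type} [Group G] (K : ℕ → Subgroup G) (hg : ∀ g, ∃ n, g ∈ K n)
    (h : ∀ n, TF (K n)) : TF G := by
  intro x hx
  obtain ⟨n, hn⟩ := hg x
  have h1 : (⟨x, hn⟩ : K n) = 1 := h n _ (fin_of_inj (K n).subtype Subtype.val_injective hx)
  exact congrArg Subtype.val h1

/-- the torsion-free groups in a class -/
def tf (C : ∀ (G : Type) [Group G], Prop) : ∀ (G : Type) [Group G], Prop := fun G _ => C G ∧ TF G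

theorem Cl.tf (h : Cl C) : Cl (tf C) where
  inj := fun G H _ _ f hf hH => ⟨h.inj G H f hf hH.1, TF_inj f hf hH.2⟩
  prod := fun G H _ _ hG hH => ⟨h.prod G H hG.1 hH.1, TF_prod hG.2 hH.2⟩
  coprod := fun G H _ _ hG hH => ⟨h.coprod G H hG.1 hH.1, TF_coprod hG.2 hH.2⟩
  coprodI := fun I A _ hA => ⟨h.coprodI I A fun i => (hA i).1, TF_coprodI fun i => (hA i).2⟩
  fbc := fun X α => ⟨h.fbc X α, TF_fbc X α⟩
  hnn := fun G Q _ _ A B φ f hf hG hQ => ⟨h.hnn G Q A B φ f hf hG.1 hQ.1, TF_hnn φ hG.2⟩
  chain := fun G _ K hK hg hc => ⟨h.chain G K hK hg fun n => (hc n).1,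
    TF_chain K hg fun n => (hc n).2⟩

theorem Cl.equiv (h : Cl C) {G H : Type} [Group G] [Group H] (e : G ≃* H) (hG : C G) : C H :=
  h.inj H G e.symm.toMonoidHom e.symm.injective hG

theorem Cl.free (h : Cl C) (X : Type) : C (FreeGroup X) :=
  h.inj _ _ (SemidirectProduct.inl) SemidirectProduct.inl_injective (h.fbc X 1)

/-- amalgams with a homomorphism which is injective on the amalgamated subgroup -/
theorem Cl.amalgam (hC : Cl C) {H : Type} [Group H] {K : Bool → Type} [∀ i, Group (K i)]
    (φ : ∀ i, H →* K i) (hφ : ∀ i, Function.Injective (φ i))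
    {Q : Type} [Group Q] (f : PushoutI φ →* Q)
    (hf : Function.Injective (f.comp (PushoutI.base φ))) (hK : ∀ i, C (K i)) (hQ : C Q) :
    C (PushoutI φ) := by
  let M := Coprod (K true) (K false)
  let i1 : H →* M := Coprod.inl.comp (φ true)
  let i2 : H →* M := Coprod.inr.comp (φ false)
  have h1 : Function.Injective i1 := Coprod.inl_injective.comp (hφ true)
  have h2 : Function.Injective i2 := Coprod.inr_injective.comp (hφ false)
  let e : i1.range ≃* i2.range := (MonoidHom.ofInjective h1).symm.trans (MonoidHom.ofInjective h2)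
  have he : ∀ h : H, e ⟨i1 h, ⟨h, rfl⟩⟩ = ⟨i2 h, ⟨h, rfl⟩⟩ := by
    intro h
    have h3 : (⟨i1 h, ⟨h, rfl⟩⟩ : i1.range) = MonoidHom.ofInjective h1 h := rfl
    rw [h3]
    show (MonoidHom.ofInjective h2) ((MonoidHom.ofInjective h1).symm
      (MonoidHom.ofInjective h1 h)) = _
    rw [MulEquiv.symm_apply_apply]
    rfl
  -- the retraction
  let ρ0 : M →* PushoutI φ := Coprod.lift (PushoutI.of (φ := φ) true) (PushoutI.of (φ := φ) false)
  have hρ1 : ∀ h : H, ρ0 (i1 h) = PushoutI.base φ h := by
    intro h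
    show ρ0 (Coprod.inl (φ true h)) = _
    rw [Coprod.lift_apply_inl, PushoutI.of_apply_eq_base]
  have hρ2 : ∀ h : H, ρ0 (i2 h) = PushoutI.base φ h := by
    intro h
    show ρ0 (Coprod.inr (φ false h)) = _
    rw [Coprod.lift_apply_inr, PushoutI.of_apply_eq_base]
  let ρ : HNNExtension M i1.range i2.range e →* PushoutI φ := HNNExtension.lift ρ0 1 (by
    rintro ⟨_, h, rfl⟩
    rw [one_mul, mul_one, he, hρ1, hρ2])
  -- the embedding
  let j : PushoutI φ →* HNNExtension M i1.range i2.range e := PushoutI.lift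
    (fun i => match i with
      | true => (MulAut.conj HNNExtension.t).toMonoidHom.comp (HNNExtension.of.comp Coprod.inl)
      | false => HNNExtension.of.comp Coprod.inr)
    (HNNExtension.of.comp i2) (by
      intro i
      cases i
      · rfl
      · ext h
        show HNNExtension.t * HNNExtension.of (i1 h) * HNNExtension.t⁻¹ = HNNExtension.of (i2 h)
        have h3 := HNNExtension.equiv_eq_conj (φ := e) (⟨i1 h, ⟨h, rfl⟩⟩ : i1.range)
        rw [he] at h3
        exact h3.symm)
  have hρj : ρ.comp j = MonoidHom.id _ := by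
    apply PushoutI.hom_ext_nonempty
    intro i
    ext k
    cases i
    · show ρ (j (PushoutI.of false k)) = PushoutI.of false k
      rw [PushoutI.lift_of]
      show ρ (HNNExtension.of (Coprod.inr k)) = _
      rw [HNNExtension.lift_of, Coprod.lift_apply_inr]
    · show ρ (j (PushoutI.of true k)) = PushoutI.of true k
      rw [PushoutI.lift_of]
      show ρ (HNNExtension.t * HNNExtension.of (Coprod.inl k) * HNNExtension.t⁻¹) = _
      rw [map_mul, map_mul, map_inv, HNNExtension.lift_t, HNNExtension.lift_of,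
        Coprod.lift_apply_inl, one_mul, inv_one, mul_one]
  have hj : Function.Injective j := by
    intro x y hxy
    have h3 := congrArg ρ hxy
    have h4 : ∀ z, ρ (j z) = z := fun z => DFunLike.congr_fun hρj z
    rwa [h4, h4] at h3
  refine hC.inj _ _ j hj ?_
  refine hC.hnn _ _ _ _ e (f.comp ρ) ?_ (hC.coprod _ _ (hK true) (hK false)) hQ
  rintro _ ⟨h, rfl⟩ h3
  have h4 : f (PushoutI.base φ h) = 1 := by
    rw [← hρ1]
    have h5 : ρ (HNNExtension.of (i1 h)) = ρ0 (i1 h) := HNNExtension.lift_of _ _ _ _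
    rw [← h5]
    exact h3
  have h5 : h = 1 := hf (by rw [map_one]; exact h4)
  rw [h5, map_one]

end Pool.Agent.K7.H29.EM
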