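import Mathlib.GroupTheory.FinitelyPresentedGroup
import Mathlib.GroupTheory.PushoutI
import Mathlib.GroupTheory.NoncommCoprod

/-!
# Finite presentations of products and doubles
-/

set_option autoImplicit false

namespace Pool.Agent.K7.H29.EM

open Monoid Group

/-- a criterion for finite presentability -/
theorem fp_of_back {Γ K : Type} [Group Γ] [Group K] (hΓ : IsFinitelyPresented Γ) (f : Γ →* K)
    (hf : Function.Surjective f) (S : Set Γ) (hS : S.Finite) (hSf : ∀ x ∈ S, f x = 1)
    (back : K →* Γ ⧸ Subgroup.normalClosure S)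
    (hb : ∀ x, back (f x) = QuotientGroup.mk' (Subgroup.normalClosure S) x) :
    IsFinitelyPresented K := by
  refine IsFinitelyPresented.of_surjective f hf ⟨S, hS, le_antisymm ?_ ?_⟩
  · exact Subgroup.normalClosure_le_normal hSf
  · intro x hx
    have h1 : QuotientGroup.mk' (Subgroup.normalClosure S) x = 1 := by
      rw [← hb, show f x = 1 from hx, map_one]
    exact (QuotientGroup.eq_one_iff _).1 h1

/-- the direct product of two finitely presented groups -/
theorem fp_prod {A B : Type} [Group A] [Group B] (hA : IsFinitelyPresented A)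
    (hB : IsFinitelyPresented B) (SA : Set A) (hSA : SA.Finite) (hA' : Subgroup.closure SA = ⊤)
    (SB : Set B) (hSB : SB.Finite) (hB' : Subgroup.closure SB = ⊤) :
    IsFinitelyPresented (A × B) := by
  let S : Set (Coprod A B) := (fun p : A × B => Coprod.inl p.1 * Coprod.inr p.2 *
    (Coprod.inl p.1)⁻¹ * (Coprod.inr p.2)⁻¹) '' (SA ×ˢ SB)
  let e : Coprod A B →* Coprod A B ⧸ Subgroup.normalClosure S := QuotientGroup.mk' _
  have h1 : ∀ a ∈ SA, ∀ b ∈ SB, Commute (e (Coprod.inl a)) (e (Coprod.inr b)) := by
    intro a ha b hb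
    have h : e (Coprod.inl a * Coprod.inr b * (Coprod.inl a)⁻¹ * (Coprod.inr b)⁻¹) = 1 :=
      (QuotientGroup.eq_one_iff _).2 (Subgroup.subset_normalClosure ⟨(a, b), ⟨ha, hb⟩, rfl⟩)
    rw [map_mul, map_inv, mul_inv_eq_one, map_mul, map_inv, mul_inv_eq_iff_eq_mul, map_mul] at h
    exact h
  have h2 : ∀ a ∈ SA, ∀ b, Commute (e (Coprod.inl a)) (e (Coprod.inr b)) := by
    intro a ha b
    have hb : b ∈ Subgroup.closure SB := by rw [hB']; exact Subgroup.mem_top b
    induction hb using Subgroup.closure_induction with
    | mem b hb => exact h1 a ha b hb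
    | one => rw [map_one, map_one]; exact Commute.one_right _
    | mul x y _ _ hx hy => rw [map_mul, map_mul]; exact hx.mul_right hy
    | inv x _ hx => rw [map_inv, map_inv]; exact hx.inv_right
  have h3 : ∀ a b, Commute (e (Coprod.inl a)) (e (Coprod.inr b)) := by
    intro a b
    have ha : a ∈ Subgroup.closure SA := by rw [hA']; exact Subgroup.mem_top a
    induction ha using Subgroup.closure_induction with
    | mem a ha => exact h2 a ha b
    | one => rw [map_one, map_one]; exact Commute.one_left _
    | mul x y _ _ hx hy => rw [map_mul, map_mul]; exact hx.mul_left hy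
    | inv x _ hx => rw [map_inv, map_inv]; exact hx.inv_left
  let back : A × B →* Coprod A B ⧸ Subgroup.normalClosure S :=
    MonoidHom.noncommCoprod (e.comp Coprod.inl) (e.comp Coprod.inr) h3
  refine fp_of_back (Γ := Coprod A B) (inferInstance)
    (Coprod.lift (MonoidHom.inl A B) (MonoidHom.inr A B)) ?_ S ((hSA.prod hSB).image _) ?_ back ?_
  · rintro ⟨a, b⟩
    refine ⟨Coprod.inl a * Coprod.inr b, ?_⟩
    rw [map_mul, Coprod.lift_apply_inl, Coprod.lift_apply_inr]
    simp
  · rintro _ ⟨⟨a, b⟩, _, rfl⟩
    simp only [map_mul, map_inv, Coprod.lift_apply_inl, Coprod.lift_apply_inr]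
    simp
  · intro x
    have h4 : back.comp (Coprod.lift (MonoidHom.inl A B) (MonoidHom.inr A B)) = e := by
      apply Coprod.hom_ext
      · ext a
        simp [back]
      · ext b
        simp [back]
    exact DFunLike.congr_fun h4 x

section double

variable {H : Type} [Group H] (L : Subgroup H)

/-- the double of `H` along `L` -/
abbrev Db : Type := PushoutI (fun _ : Bool => L.subtype)

/-- the two inclusions -/
def io (c : Bool) : H →* Db L := PushoutI.of (φ := fun _ : Bool => L.subtype) c

theorem io_eq {l : H} (hl : l ∈ L) (c c' : Bool) : io L c l = io L c' l := by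
  have h1 : ∀ c, io L c l = PushoutI.base (fun _ : Bool => L.subtype) ⟨l, hl⟩ := fun c =>
    PushoutI.of_apply_eq_base (fun _ : Bool => L.subtype) c ⟨l, hl⟩
  rw [h1, h1]

theorem Db_ext {K : Type} [Group K] {f g : Db L →* K} (h : ∀ c x, f (io L c x) = g (io L c x)) :
    f = g := by
  apply PushoutI.hom_ext_nonempty
  intro c
  ext x
  exact h c x

/-- the universal property -/
def dl {K : Type} [Group K] (f : Bool → H →* K) (hf : ∀ l ∈ L, f true l = f false l) : Db L →* K :=
  PushoutI.lift f ((f true).comp L.subtype) (by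
    intro c
    ext l
    cases c
    · exact (hf l l.2).symm
    · rfl)

theorem dl_io {K : Type} [Group K] (f : Bool → H →* K) (hf) (c : Bool) (x : H) :
    dl L f hf (io L c x) = f c x := PushoutI.lift_of _ _ _ _

theorem Db_gen (S : Set H) (hS : Subgroup.closure S = ⊤) :
    Subgroup.closure ((io L true) '' S ∪ (io L false) '' S) = ⊤ := by
  rw [Subgroup.eq_top_iff']
  intro x
  induction x using PushoutI.induction_on with
  | of c g =>
    show io L c g ∈ _
    have hg : g ∈ Subgroup.closure S := by rw [hS]; exact Subgroup.mem_top g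
    induction hg using Subgroup.closure_induction with
    | mem g hg =>
      apply Subgroup.subset_closure
      cases c
      · exact Or.inr ⟨g, hg, rfl⟩
      · exact Or.inl ⟨g, hg, rfl⟩
    | one => rw [map_one]; exact Subgroup.one_mem _
    | mul x y _ _ hx hy => rw [map_mul]; exact Subgroup.mul_mem _ hx hy
    | inv x _ hx => rw [map_inv]; exact Subgroup.inv_mem _ hx
  | base l =>
    have h1 : PushoutI.base (fun _ : Bool => L.subtype) l = io L true l :=
      (PushoutI.of_apply_eq_base (fun _ : Bool => L.subtype) true l).symm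
    rw [h1]
    obtain ⟨g, hgl⟩ : ∃ g : H, g = l := ⟨_, rfl⟩
    rw [← hgl]
    clear hgl h1
    have hg : g ∈ Subgroup.closure S := by rw [hS]; exact Subgroup.mem_top g
    induction hg using Subgroup.closure_induction with
    | mem g hg => exact Subgroup.subset_closure (Or.inl ⟨g, hg, rfl⟩)
    | one => rw [map_one]; exact Subgroup.one_mem _
    | mul x y _ _ hx hy => rw [map_mul]; exact Subgroup.mul_mem _ hx hy
    | inv x _ hx => rw [map_inv]; exact Subgroup.inv_mem _ hx
  | mul x y hx hy => exact Subgroup.mul_mem _ hx hy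

/-- the double along a finitely generated subgroup -/
theorem fp_double (hH : IsFinitelyPresented H) (hL : L.FG) : IsFinitelyPresented (Db L) := by
  obtain ⟨T, hT⟩ := hL
  let S : Set (Coprod H H) := (fun l : H => Coprod.inl l * (Coprod.inr l)⁻¹) '' (T : Set H)
  let e : Coprod H H →* Coprod H H ⧸ Subgroup.normalClosure S := QuotientGroup.mk' _
  have h1 : ∀ l ∈ L, e (Coprod.inl l) = e (Coprod.inr l) := by
    intro l hl
    rw [← hT] at hl
    induction hl using Subgroup.closure_induction with
    | mem l hl =>
      have h : e (Coprod.inl l * (Coprod.inr l)⁻¹) = 1 :=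
        (QuotientGroup.eq_one_iff _).2 (Subgroup.subset_normalClosure ⟨l, hl, rfl⟩)
      rwa [map_mul, map_inv, mul_inv_eq_one] at h
    | one => simp only [map_one]
    | mul x y _ _ hx hy => rw [map_mul, map_mul, map_mul, map_mul, hx, hy]
    | inv x _ hx => rw [map_inv, map_inv, map_inv, map_inv, hx]
  let fs : Bool → H →* Coprod H H ⧸ Subgroup.normalClosure S := fun c =>
    match c with
    | true => e.comp Coprod.inl
    | false => e.comp Coprod.inr
  refine fp_of_back (Γ := Coprod H H) (inferInstance) (Coprod.lift (io L true) (io L false)) ?_ S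
    (T.finite_toSet.image _) ?_ (dl L fs h1) ?_
  · intro x
    induction x using PushoutI.induction_on with
    | of c g =>
      cases c
      · exact ⟨Coprod.inr g, Coprod.lift_apply_inr _ _ _⟩
      · exact ⟨Coprod.inl g, Coprod.lift_apply_inl _ _ _⟩
    | base l =>
      refine ⟨Coprod.inl l, (Coprod.lift_apply_inl _ _ _).trans ?_⟩
      exact PushoutI.of_apply_eq_base (fun _ : Bool => L.subtype) true l
    | mul x y hx hy =>
      obtain ⟨x, rfl⟩ := hx
      obtain ⟨y, rfl⟩ := hy
      exact ⟨x * y, map_mul _ _ _⟩
  · rintro _ ⟨l, hl, rfl⟩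
    rw [map_mul, map_inv, Coprod.lift_apply_inl, Coprod.lift_apply_inr, mul_inv_eq_one]
    exact io_eq L (hT ▸ Subgroup.subset_closure hl) _ _
  · intro x
    have h4 : (dl L fs h1).comp (Coprod.lift (io L true) (io L false)) = e := by
      apply Coprod.hom_ext
      · ext a
        rw [MonoidHom.comp_apply, MonoidHom.comp_apply, Coprod.lift_apply_inl, dl_io]
      · ext b
        rw [MonoidHom.comp_apply, MonoidHom.comp_apply, Coprod.lift_apply_inr, dl_io]
    exact DFunLike.congr_fun h4 x

end double

end Pool.Agent.K7.H29.EM
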