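import Pool.Agent.K7.H29.EM.Rope

/-!
# Embeddings in finitely presented groups with two generators
-/

set_option autoImplicit false

namespace Pool.Agent.K7.H29.EM

open Monoid Group

variable {C : ∀ (G : Type) [Group G], Prop}

section two

variable {G J : Type} [Group G] (g : ℕ → G) (κ : FreeGroup J →* FreeGroup ℕ)
  (hκ : Function.Injective κ)

/-- the first free subgroup -/
def k1 (G : Type) [Group G] : FreeGroup J →* Coprod G (FreeGroup Bool) := (i1 G).comp κ

/-- the second free subgroup -/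
def k2 : FreeGroup J →* Coprod G (FreeGroup Bool) := (i2 g).comp κ

include hκ in
theorem k1_inj : Function.Injective (k1 κ G) := i1_inj.comp hκ

include hκ in
theorem k2_inj : Function.Injective (k2 g κ) := (i2_inj g).comp hκ

theorem C_k (hC : Cl C) (hG : C G) :
    C (HX (k1_inj (G := G) κ hκ) (k2_inj g κ hκ)) := by
  let f : HX (k1_inj (G := G) κ hκ) (k2_inj g κ hκ) →*
      FreeGroup Bool ⋊[zpowersHom (MulAut (FreeGroup Bool)) sw] Multiplicative ℤ :=
    hx _ _ (SemidirectProduct.inl.comp Coprod.snd)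
      (SemidirectProduct.inr (Multiplicative.ofAdd 1)) (by
        intro x
        show SemidirectProduct.inr (Multiplicative.ofAdd 1) *
          SemidirectProduct.inl (Coprod.snd (i1 G (κ x))) =
          SemidirectProduct.inl (Coprod.snd (i2 g (κ x))) *
            SemidirectProduct.inr (Multiplicative.ofAdd 1)
        rw [← mul_inv_eq_iff_eq_mul, ← map_inv, ← SemidirectProduct.inl_aut, ← sw_snd g]
        congr 1)
  refine hC.hnn _ _ _ _ _ f ?_ (hC.coprod _ _ hG (hC.free _)) (hC.fbc Bool sw)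
  rintro _ ⟨x, rfl⟩ hx1
  have h1 : SemidirectProduct.inl (Coprod.snd (i1 G (κ x))) = (1 : FreeGroup Bool
      ⋊[zpowersHom (MulAut (FreeGroup Bool)) sw] Multiplicative ℤ) := by
    exact (hx_of (k1_inj (G := G) κ hκ) (k2_inj g κ hκ) (SemidirectProduct.inl.comp Coprod.snd)
      (SemidirectProduct.inr (Multiplicative.ofAdd 1)) _ (i1 G (κ x))).symm.trans hx1
  have h2 : Coprod.snd (i1 G (κ x)) = 1 :=
    SemidirectProduct.inl_injective (h1.trans (map_one _).symm)
  rw [snd_i1] at h2
  have h3 : κ x = 1 := conj_free (X := Bool) true false (by decide) (h2.trans (map_one _).symm)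
  show i1 G (κ x) = 1
  rw [h3, map_one]

end two

theorem gen_k {G : Type} [Group G] (g : ℕ → G) (m : ℕ)
    (hκ : Function.Injective (FreeGroup.map (Fin.val : Fin (m + 1) → ℕ)))
    (hg : Subgroup.closure (g '' {n | n ≤ m}) = ⊤) (h0 : g 0 = 1) :
    Subgroup.closure {(HNNExtension.t : HX (k1_inj (G := G) _ hκ) (k2_inj g _ hκ)),
      HNNExtension.of gb} = ⊤ := by
  obtain ⟨L, hL⟩ : ∃ L : Subgroup (HX (k1_inj (G := G) _ hκ) (k2_inj g _ hκ)),
    L = Subgroup.closure {(HNNExtension.t : HX (k1_inj (G := G) _ hκ) (k2_inj g _ hκ)),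
      HNNExtension.of gb} := ⟨_, rfl⟩
  rw [← hL]
  have ht : (HNNExtension.t : HX (k1_inj (G := G) _ hκ) (k2_inj g _ hκ)) ∈ L := by
    rw [hL]; exact Subgroup.subset_closure (by simp)
  have hb : (HNNExtension.of gb : HX (k1_inj (G := G) _ hκ) (k2_inj g _ hκ)) ∈ L := by
    rw [hL]; exact Subgroup.subset_closure (by simp)
  have key : ∀ n, n ≤ m →
      (HNNExtension.of (i1 G (FreeGroup.of n)) : HX (k1_inj (G := G) _ hκ) (k2_inj g _ hκ)) ∈ L →
      (HNNExtension.of (i2 g (FreeGroup.of n)) : HX (k1_inj (G := G) _ hκ) (k2_inj g _ hκ)) ∈ L := by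
    intro n hn hx1
    have h1 := t_i (k1_inj (G := G) _ hκ) (k2_inj g _ hκ)
      (FreeGroup.of (⟨n, Nat.lt_succ_of_le hn⟩ : Fin (m + 1)))
    have h2 : k1 (FreeGroup.map (Fin.val : Fin (m + 1) → ℕ)) G
        (FreeGroup.of (⟨n, Nat.lt_succ_of_le hn⟩ : Fin (m + 1))) = i1 G (FreeGroup.of n) := by
      show i1 G (FreeGroup.map _ (FreeGroup.of _)) = _
      rw [FreeGroup.map.of]
    have h3 : k2 g (FreeGroup.map (Fin.val : Fin (m + 1) → ℕ))
        (FreeGroup.of (⟨n, Nat.lt_succ_of_le hn⟩ : Fin (m + 1))) = i2 g (FreeGroup.of n) := by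
      show i2 g (FreeGroup.map _ (FreeGroup.of _)) = _
      rw [FreeGroup.map.of]
    rw [h2, h3, ← mul_inv_eq_iff_eq_mul] at h1
    rw [← h1]
    exact L.mul_mem (L.mul_mem ht hx1) (L.inv_mem ht)
  have h1 : ∀ n, i1 G (FreeGroup.of n) = ga⁻¹ ^ n * gb * ga ^ n := fun n => by
    rw [i1, FreeGroup.lift_apply_of]
  have h2 : ∀ n, i2 g (FreeGroup.of n) = Coprod.inl (g n) * (gb⁻¹ ^ n * ga * gb ^ n) := fun n => by
    rw [i2, FreeGroup.lift_apply_of]
  have ha : (HNNExtension.of ga : HX (k1_inj (G := G) _ hκ) (k2_inj g _ hκ)) ∈ L := by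
    have h3 := key 0 (Nat.zero_le _) (by
      rw [h1, pow_zero, pow_zero, one_mul, mul_one]; exact hb)
    rwa [h2, h0, map_one, one_mul, pow_zero, pow_zero, one_mul, mul_one] at h3
  have hinl : ∀ x : G,
      (HNNExtension.of (Coprod.inl x) : HX (k1_inj (G := G) _ hκ) (k2_inj g _ hκ)) ∈ L := by
    intro x
    have hx1 : x ∈ Subgroup.closure (g '' {n | n ≤ m}) := by rw [hg]; exact Subgroup.mem_top x
    induction hx1 using Subgroup.closure_induction with
    | mem x hx1 =>
      obtain ⟨n, hn, rfl⟩ := hx1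
      have h3 := key n hn (by
        rw [h1, map_mul, map_mul, map_pow, map_pow, map_inv]
        exact L.mul_mem (L.mul_mem (L.pow_mem (L.inv_mem ha) n) hb) (L.pow_mem ha n))
      rw [h2, map_mul] at h3
      have h4 : (HNNExtension.of (gb⁻¹ ^ n * ga * gb ^ n) :
          HX (k1_inj (G := G) _ hκ) (k2_inj g _ hκ)) ∈ L := by
        rw [map_mul, map_mul, map_pow, map_pow, map_inv]
        exact L.mul_mem (L.mul_mem (L.pow_mem (L.inv_mem hb) n) ha) (L.pow_mem hb n)
      exact (Subgroup.mul_mem_cancel_right L h4).1 h3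
    | one => rw [map_one, map_one]; exact L.one_mem
    | mul x y _ _ hx hy => rw [map_mul, map_mul]; exact L.mul_mem hx hy
    | inv x _ hx => rw [map_inv, map_inv]; exact L.inv_mem hx
  have hinr : ∀ x : FreeGroup Bool,
      (HNNExtension.of (Coprod.inr x) : HX (k1_inj (G := G) _ hκ) (k2_inj g _ hκ)) ∈ L := by
    intro x
    induction x using FreeGroup.induction_on with
    | C1 => rw [map_one, map_one]; exact L.one_mem
    | of c =>
      cases c
      · exact hb
      · exact ha
    | inv_of c hc => rw [map_inv, map_inv]; exact L.inv_mem hc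
    | mul x y hx hy => rw [map_mul, map_mul]; exact L.mul_mem hx hy
  rw [Subgroup.eq_top_iff']
  intro x
  induction x using HNNExtension.induction_on with
  | of x =>
    induction x using Coprod.induction_on with
    | inl x => exact hinl x
    | inr x => exact hinr x
    | mul x y hx hy => rw [map_mul]; exact L.mul_mem hx hy
  | t => exact ht
  | mul x y hx hy => exact L.mul_mem hx hy
  | inv x hx => exact L.inv_mem hx

/-- finitely presented groups in `C` embed in finitely presented groups in `C` with two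
generators -/
theorem fin_two (hC : Cl C) {G : Type} [Group G] (hG : C G)
    (hfp : IsFinitelyPresented G) :
    ∃ (H : Type) (_ : Group H) (x y : H) (f : G →* H), C H ∧ IsFinitelyPresented H ∧
      Subgroup.closure {x, y} = ⊤ ∧ Function.Injective f := by
  obtain ⟨n, φ, hφ, -⟩ := hfp.out
  let g : ℕ → G := fun k => if h : 0 < k ∧ k ≤ n then φ (FreeGroup.of ⟨k - 1, by omega⟩) else 1
  have h0 : g 0 = 1 := by simp [g]
  have hg : Subgroup.closure (g '' {k | k ≤ n}) = ⊤ := by
    rw [← top_le_iff, ← MonoidHom.range_eq_top.2 hφ, MonoidHom.range_eq_map,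
      ← FreeGroup.closure_range_of, MonoidHom.map_closure]
    apply Subgroup.closure_mono
    rintro _ ⟨_, ⟨k, rfl⟩, rfl⟩
    refine ⟨k + 1, ?_, ?_⟩
    · show (k : ℕ) + 1 ≤ n
      omega
    · have h1 : 0 < (k : ℕ) + 1 ∧ (k : ℕ) + 1 ≤ n := by omega
      simp only [g, dif_pos h1]
      rfl
  have hκ : Function.Injective (FreeGroup.map (Fin.val : Fin (n + 1) → ℕ)) :=
    FreeGroup.map_injective Fin.val_injective
  have hB : IsFinitelyPresented (Coprod G (FreeGroup Bool)) := by
    have := hfp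
    infer_instance
  refine ⟨HX (k1_inj (G := G) _ hκ) (k2_inj g _ hκ), inferInstance, HNNExtension.t,
    HNNExtension.of gb, HNNExtension.of.comp Coprod.inl, C_k g _ hκ hC hG,
    fp_hnn _ _ hB ⟨Set.range FreeGroup.of, Set.finite_range _, FreeGroup.closure_range_of _⟩,
    gen_k g n hκ hg h0, ?_⟩
  intro x y hxy
  exact Coprod.inl_injective (HNNExtension.of_injective _ hxy)

/-- **Higman's embedding theorem** for groups in `C` -/
theorem higman (hC : Cl C) {G Q : Type} [Group G] [Group Q] (hG : C G)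
    (hfg : Group.FG G) (hQ : IsFinitelyPresented Q) (ι : G →* Q) (hι : Function.Injective ι) :
    ∃ (H : Type) (_ : Group H) (x y : H) (f : G →* H), C H ∧ IsFinitelyPresented H ∧
      Subgroup.closure {x, y} = ⊤ ∧ Function.Injective f := by
  obtain ⟨n, π, hπ, R, hR, hRk⟩ := hQ.out
  obtain ⟨T, hT⟩ := Group.fg_def.1 hfg
  obtain ⟨m, g, hg⟩ : ∃ (m : ℕ) (g : Fin m → G), Subgroup.closure (Set.range g) = ⊤ := by
    refine ⟨T.card, fun k => (T.equivFin.symm k : G), ?_⟩
    rw [← hT]
    congr 1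
    ext x
    constructor
    · rintro ⟨k, rfl⟩
      exact (T.equivFin.symm k).2
    · intro hx
      exact ⟨T.equivFin ⟨x, hx⟩, by simp⟩
  choose u hu using fun k => hπ (ι (g k))
  have hTX : Subgroup.closure (Set.range (FreeGroup.of : Fin n → FreeGroup (Fin n))) = ⊤ :=
    FreeGroup.closure_range_of _
  have hL : (fib π).FG := fib_fg π _ R (Set.finite_range _) hR hTX hRk
  have hFF : IsFinitelyPresented (FreeGroup (Fin n) × FreeGroup (Fin n)) :=
    fp_prod inferInstance inferInstance _ (Set.finite_range _) hTX _ (Set.finite_range _) hTX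
  have hD : IsFinitelyPresented (Db (fib π)) := fp_double _ hFF hL
  have hgen : ∃ SD : Set (Db (fib π)), SD.Finite ∧ Subgroup.closure SD = ⊤ := by
    obtain ⟨k, φ, hφ, -⟩ := hD.out
    refine ⟨φ '' Set.range FreeGroup.of, (Set.finite_range _).image _, ?_⟩
    rw [← MonoidHom.map_closure, FreeGroup.closure_range_of, ← MonoidHom.range_eq_map,
      MonoidHom.range_eq_top.2 hφ]
  obtain ⟨SD, hSD, hSD'⟩ := hgen
  obtain ⟨H, iH, x, y, f, hH, hHfp, hxy, hf⟩ := fin_two hC
    (C_RK π hι g u hu hC (hC.free _) hG) (fp_RK π hι g u hu hD SD hSD hSD' hg)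
  refine ⟨H, iH, x, y, f.comp (HNNExtension.of.comp (MonoidHom.inr _ _)), hH, hHfp, hxy, ?_⟩
  refine hf.comp ((HNNExtension.of_injective _).comp ?_)
  intro a b hab
  exact (Prod.ext_iff.1 hab).2

end Pool.Agent.K7.H29.EM
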