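import Pool.Agent.K7.H29.EM.Fp

/-!
# Doubles of subgroups
-/

set_option autoImplicit false

namespace Pool.Agent.K7.H29.EM

open Monoid Group

variable {H : Type} [Group H] (L F : Subgroup H)

/-- the double of `F` along `L ∩ F` maps to the double of `H` along `L` -/
def psi : Db (L.subgroupOf F) →* Db L :=
  dl (L.subgroupOf F) (fun c => (io L c).comp F.subtype) (fun l hl => by
    show io L true (l : H) = io L false (l : H)
    exact io_eq L (Subgroup.mem_subgroupOf.1 hl) _ _)

theorem psi_io (c : Bool) (x : F) : psi L F (io (L.subgroupOf F) c x) = io L c (x : H) :=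
  dl_io _ _ _ _ _

theorem io_inj (c : Bool) : Function.Injective (io L c) :=
  PushoutI.of_injective (fun _ => L.subtype_injective) c

/-- the map of the letters -/
def mp (F : Subgroup H) (l : Σ _ : Bool, F) : Σ _ : Bool, H := ⟨l.1, (l.2 : H)⟩

theorem psi_inj : Function.Injective (psi L F) := by
  classical
  rw [injective_iff_map_eq_one]
  intro x hx
  obtain ⟨d⟩ := PushoutI.NormalWord.transversal_nonempty
    (fun _ : Bool => (L.subgroupOf F).subtype) (fun _ => Subtype.val_injective)
  obtain ⟨w, rfl⟩ : ∃ w : PushoutI.NormalWord d, w.prod = x :=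
    ⟨PushoutI.NormalWord.equiv x, PushoutI.NormalWord.equiv.symm_apply_apply x⟩
  -- the letters are not in `L`
  have hlet : ∀ l ∈ w.toList, ((l.2 : F) : H) ∉ L := by
    rintro ⟨c, g⟩ hl hg
    have h1 := w.normalized c g hl
    have h2 : g ∈ ((L.subgroupOf F).subtype).range := by
      rw [Subgroup.range_subtype]
      exact Subgroup.mem_subgroupOf.2 hg
    have h3 : g = 1 := by
      have h4 := (d.compl c).1 (a₁ := (⟨g, h2⟩, ⟨1, d.one_mem c⟩))
        (a₂ := (⟨1, Subgroup.one_mem _⟩, ⟨g, h1⟩)) (by simp)
      have h5 := congrArg (fun p => (p.1 : F)) h4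
      exact h5
    exact w.ne_one _ hl h3
  let w' : CoprodI.Word (fun _ : Bool => H) :=
    { toList := w.toList.map (mp F)
      ne_one := by
        intro l hl
        rw [List.mem_map] at hl
        obtain ⟨l, hl, rfl⟩ := hl
        intro h1
        exact w.ne_one l hl (Subtype.ext h1)
      chain_ne := by
        rw [List.isChain_map]
        exact w.chain_ne }
  have hred : PushoutI.Reduced (fun _ : Bool => L.subtype) w' := by
    intro l hl
    rw [List.mem_map] at hl
    obtain ⟨l, hl, rfl⟩ := hl
    rw [Subgroup.range_subtype]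
    exact hlet l hl
  have hprod : PushoutI.ofCoprodI (φ := fun _ : Bool => L.subtype) w'.prod =
      psi L F (PushoutI.ofCoprodI (φ := fun _ : Bool => (L.subgroupOf F).subtype) w.toWord.prod) := by
    rw [CoprodI.Word.prod, CoprodI.Word.prod, map_list_prod, map_list_prod, map_list_prod,
      List.map_map, List.map_map, List.map_map, List.map_map]
    congr 1
  have hbase : ∀ r : L.subgroupOf F, psi L F
      (PushoutI.base (fun _ : Bool => (L.subgroupOf F).subtype) r) =
      PushoutI.base (fun _ : Bool => L.subtype) ⟨(r : F), Subgroup.mem_subgroupOf.1 r.2⟩ := by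
    intro r
    rw [← PushoutI.of_apply_eq_base (fun _ : Bool => (L.subgroupOf F).subtype) true r,
      ← PushoutI.of_apply_eq_base (fun _ : Bool => L.subtype) true]
    exact psi_io L F true r.1
  have h1 : psi L F w.prod = PushoutI.base (fun _ : Bool => L.subtype)
      ⟨(w.head : F), Subgroup.mem_subgroupOf.1 w.head.2⟩ *
      PushoutI.ofCoprodI (φ := fun _ : Bool => L.subtype) w'.prod := by
    rw [hprod, ← hbase, ← map_mul]
    rfl
  rw [hx] at h1
  have h2 : w' = .empty := by
    refine hred.eq_empty_of_mem_range (fun _ => L.subtype_injective) ?_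
    refine ⟨⟨(w.head : F), Subgroup.mem_subgroupOf.1 w.head.2⟩⁻¹, ?_⟩
    rw [map_inv]
    exact (eq_inv_of_mul_eq_one_right h1.symm).symm
  have h3 : w.toList = [] := by
    have h4 : w.toList.map (mp F) = [] := congrArg CoprodI.Word.toList h2
    exact List.map_eq_nil_iff.1 h4
  have h4 : w'.prod = 1 := by rw [h2]; exact CoprodI.Word.prod_empty
  rw [h4, map_one, mul_one] at h1
  have h5 := PushoutI.base_injective (φ := fun _ : Bool => L.subtype)
    (fun _ => L.subtype_injective) (h1.symm.trans (map_one _).symm)
  have h6 : w.head = 1 := by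
    apply Subtype.ext
    apply Subtype.ext
    exact congrArg (fun l : L => (l : H)) h5
  have h7 : w.toWord = .empty := CoprodI.Word.ext h3
  show PushoutI.base _ w.head * PushoutI.ofCoprodI w.toWord.prod = 1
  rw [h6, h7, CoprodI.Word.prod_empty, map_one, map_one, mul_one]

end Pool.Agent.K7.H29.EM
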