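import Pool.Agent.K7.H29.EM.Cl
import Mathlib.GroupTheory.PresentedGroup
import Mathlib.GroupTheory.FinitelyPresentedGroup

/-!
# Embeddings in groups with two generators
-/

set_option autoImplicit false

namespace Pool.Agent.K7.H29.EM

open Monoid (Coprod CoprodI)

/-- the shift of `F(ℤ)` -/
def shift : MulAut (FreeGroup ℤ) := FreeGroup.freeGroupCongr (Equiv.addRight (1 : ℤ))

theorem shift_zpow (k : ℤ) (n : ℤ) : (shift ^ k) (FreeGroup.of n) = FreeGroup.of (n + k) := by
  induction k using Int.induction_on generalizing n with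
  | zero => simp
  | succ k ih =>
    rw [zpow_add, zpow_one, MulAut.mul_apply]
    show (shift ^ (k : ℤ)) (FreeGroup.of (n + 1)) = _
    rw [ih]
    congr 1
    ring
  | pred k ih =>
    rw [zpow_sub, zpow_one, MulAut.mul_apply]
    have h1 : (shift⁻¹) (FreeGroup.of n) = FreeGroup.of (n - 1) := by
      rw [MulAut.inv_apply, MulEquiv.symm_apply_eq]
      show _ = FreeGroup.of (n - 1 + 1)
      rw [sub_add_cancel]
    rw [h1, ih]
    congr 1
    ring

/-- the free group on the conjugates `a ^ (-i) b a ^ i` -/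
theorem conj_free {X : Type} (a b : X) (hab : a ≠ b) :
    Function.Injective (FreeGroup.lift fun i : ℕ =>
      (FreeGroup.of a : FreeGroup X)⁻¹ ^ i * FreeGroup.of b * FreeGroup.of a ^ i) := by
  classical
  let S := FreeGroup ℤ ⋊[zpowersHom (MulAut (FreeGroup ℤ)) shift] Multiplicative ℤ
  let f : FreeGroup X →* S := FreeGroup.lift fun x =>
    if x = a then SemidirectProduct.inr (Multiplicative.ofAdd 1)
    else if x = b then SemidirectProduct.inl (FreeGroup.of 0) else 1
  have h1 : f.comp (FreeGroup.lift fun i : ℕ =>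
      (FreeGroup.of a : FreeGroup X)⁻¹ ^ i * FreeGroup.of b * FreeGroup.of a ^ i) =
      (SemidirectProduct.inl).comp (FreeGroup.map fun i : ℕ => -(i : ℤ)) := by
    apply FreeGroup.ext_hom
    intro i
    have hfa : f (FreeGroup.of a) = SemidirectProduct.inr (Multiplicative.ofAdd 1) := by
      show FreeGroup.lift _ (FreeGroup.of a) = _
      rw [FreeGroup.lift_apply_of, if_pos rfl]
    have hfb : f (FreeGroup.of b) = SemidirectProduct.inl (FreeGroup.of 0) := by
      show FreeGroup.lift _ (FreeGroup.of b) = _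
      rw [FreeGroup.lift_apply_of, if_neg hab.symm, if_pos rfl]
    rw [MonoidHom.comp_apply, FreeGroup.lift_apply_of, map_mul, map_mul, map_pow, map_pow, map_inv,
      hfa, hfb, MonoidHom.comp_apply, FreeGroup.map.of, ← map_inv, ← map_pow, ← map_pow]
    have h2 := SemidirectProduct.inl_aut (φ := zpowersHom (MulAut (FreeGroup ℤ)) shift)
      ((Multiplicative.ofAdd (1 : ℤ))⁻¹ ^ i) (FreeGroup.of 0)
    have h3 : (((Multiplicative.ofAdd (1 : ℤ))⁻¹ ^ i)⁻¹ : Multiplicative ℤ) =
        Multiplicative.ofAdd (1 : ℤ) ^ i := by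
      rw [inv_pow, inv_inv]
    rw [h3] at h2
    rw [← h2]
    congr 1
    have h4 : (zpowersHom (MulAut (FreeGroup ℤ)) shift) ((Multiplicative.ofAdd (1 : ℤ))⁻¹ ^ i) =
        shift ^ (-(i : ℤ)) := by
      rw [map_pow, map_inv, zpowersHom_apply]
      simp
    rw [h4, shift_zpow, zero_add]
  have h2 : Function.Injective (FreeGroup.map fun i : ℕ => -(i : ℤ)) :=
    FreeGroup.map_injective (fun x y h => by simpa using h)
  intro x y hxy
  apply h2
  apply SemidirectProduct.inl_injective (φ := zpowersHom (MulAut (FreeGroup ℤ)) shift)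
  have h3 := DFunLike.congr_fun h1 x
  have h4 := DFunLike.congr_fun h1 y
  rw [MonoidHom.comp_apply, hxy] at h3
  rw [MonoidHom.comp_apply] at h4
  exact h3.symm.trans h4

section embed

variable {G : Type} [Group G] (g : ℕ → G)

/-- the two free generators -/
abbrev ga : Coprod G (FreeGroup Bool) := Coprod.inr (FreeGroup.of true)

/-- the two free generators -/
abbrev gb : Coprod G (FreeGroup Bool) := Coprod.inr (FreeGroup.of false)

/-- the first free subgroup -/
def i1 (G : Type) [Group G] : FreeGroup ℕ →* Coprod G (FreeGroup Bool) :=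
  FreeGroup.lift fun n => ga⁻¹ ^ n * gb * ga ^ n

/-- the second free subgroup -/
def i2 : FreeGroup ℕ →* Coprod G (FreeGroup Bool) :=
  FreeGroup.lift fun n => Coprod.inl (g n) * (gb⁻¹ ^ n * ga * gb ^ n)

theorem snd_i1 (x : FreeGroup ℕ) : Coprod.snd (i1 G x) = FreeGroup.lift (fun i : ℕ =>
    (FreeGroup.of true : FreeGroup Bool)⁻¹ ^ i * FreeGroup.of false * FreeGroup.of true ^ i) x := by
  have h : (Coprod.snd).comp (i1 G) = FreeGroup.lift (fun i : ℕ =>
    (FreeGroup.of true : FreeGroup Bool)⁻¹ ^ i * FreeGroup.of false * FreeGroup.of true ^ i) := by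
    apply FreeGroup.ext_hom
    intro n
    rw [MonoidHom.comp_apply, i1, FreeGroup.lift_apply_of, FreeGroup.lift_apply_of]
    simp
  exact DFunLike.congr_fun h x

theorem snd_i2 (x : FreeGroup ℕ) : Coprod.snd (i2 g x) = FreeGroup.lift (fun i : ℕ =>
    (FreeGroup.of false : FreeGroup Bool)⁻¹ ^ i * FreeGroup.of true * FreeGroup.of false ^ i) x := by
  have h : (Coprod.snd).comp (i2 g) = FreeGroup.lift (fun i : ℕ =>
    (FreeGroup.of false : FreeGroup Bool)⁻¹ ^ i * FreeGroup.of true * FreeGroup.of false ^ i) := by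
    apply FreeGroup.ext_hom
    intro n
    rw [MonoidHom.comp_apply, i2, FreeGroup.lift_apply_of, FreeGroup.lift_apply_of]
    simp
  exact DFunLike.congr_fun h x

theorem i1_inj : Function.Injective (i1 G) := by
  intro x y h
  apply conj_free (X := Bool) true false (by decide)
  rw [← snd_i1 (G := G), ← snd_i1 (G := G), h]

theorem i2_inj : Function.Injective (i2 g) := by
  intro x y h
  apply conj_free (X := Bool) false true (by decide)
  rw [← snd_i2 g, ← snd_i2 g, h]

/-- the isomorphism of the two free subgroups -/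
noncomputable def ph : (i1 G).range ≃* (i2 g).range :=
  (MonoidHom.ofInjective i1_inj).symm.trans (MonoidHom.ofInjective (i2_inj g))

theorem ph_apply (x : FreeGroup ℕ) : ph g ⟨i1 G x, x, rfl⟩ = ⟨i2 g x, x, rfl⟩ := by
  have h3 : (MonoidHom.ofInjective (i1_inj (G := G))).symm ⟨i1 G x, x, rfl⟩ = x := by
    rw [MulEquiv.symm_apply_eq]
    rfl
  show (MonoidHom.ofInjective (i2_inj g))
    ((MonoidHom.ofInjective (i1_inj (G := G))).symm ⟨i1 G x, x, rfl⟩) = _
  rw [h3]
  rfl

/-- the HNN extension -/
abbrev HH : Type := HNNExtension (Coprod G (FreeGroup Bool)) (i1 G).range (i2 g).range (ph g)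

theorem t_i1 (x : FreeGroup ℕ) : (HNNExtension.t : HH g) * HNNExtension.of (i1 G x) =
    HNNExtension.of (i2 g x) * HNNExtension.t := by
  have h3 := HNNExtension.t_mul_of (φ := ph g) ⟨i1 G x, x, rfl⟩
  rw [ph_apply g x] at h3
  exact h3

/-- exchange the two generators -/
def sw : MulAut (FreeGroup Bool) := FreeGroup.freeGroupCongr (Equiv.boolNot)

theorem sw_snd (x : FreeGroup ℕ) : sw (Coprod.snd (i1 G x)) = Coprod.snd (i2 g x) := by
  rw [snd_i1, snd_i2]
  have h : sw.toMonoidHom.comp (FreeGroup.lift (fun i : ℕ =>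
      (FreeGroup.of true : FreeGroup Bool)⁻¹ ^ i * FreeGroup.of false * FreeGroup.of true ^ i)) =
      FreeGroup.lift (fun i : ℕ =>
      (FreeGroup.of false : FreeGroup Bool)⁻¹ ^ i * FreeGroup.of true * FreeGroup.of false ^ i) := by
    apply FreeGroup.ext_hom
    intro n
    rw [MonoidHom.comp_apply, FreeGroup.lift_apply_of, FreeGroup.lift_apply_of, map_mul, map_mul,
      map_pow, map_pow, map_inv]
    rfl
  exact DFunLike.congr_fun h x

variable {C : ∀ (G : Type) [Group G], Prop}

theorem C_HH (hC : Cl C) (hG : C G) : C (HH g) := by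
  have hF : C (FreeGroup Bool) := hC.free Bool
  let f : HH g →* FreeGroup Bool ⋊[zpowersHom (MulAut (FreeGroup Bool)) sw] Multiplicative ℤ :=
    HNNExtension.lift (SemidirectProduct.inl.comp Coprod.snd)
      (SemidirectProduct.inr (Multiplicative.ofAdd 1)) (by
        rintro ⟨_, x, rfl⟩
        rw [ph_apply g x]
        show SemidirectProduct.inr (Multiplicative.ofAdd 1) *
          SemidirectProduct.inl (Coprod.snd (i1 G x)) =
          SemidirectProduct.inl (Coprod.snd (i2 g x)) * SemidirectProduct.inr (Multiplicative.ofAdd 1)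
        rw [← mul_inv_eq_iff_eq_mul, ← map_inv, ← SemidirectProduct.inl_aut, ← sw_snd g]
        congr 1)
  refine hC.hnn _ _ _ _ (ph g) f ?_ (hC.coprod _ _ hG hF) (hC.fbc Bool sw)
  rintro _ ⟨x, rfl⟩ hx
  have h1 : SemidirectProduct.inl (Coprod.snd (i1 G x)) = (1 : FreeGroup Bool
      ⋊[zpowersHom (MulAut (FreeGroup Bool)) sw] Multiplicative ℤ) := by
    rw [← hx]
    exact (HNNExtension.lift_of (φ := ph g) (SemidirectProduct.inl.comp Coprod.snd)
      (SemidirectProduct.inr (Multiplicative.ofAdd 1)) _ (i1 G x)).symm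
  have h2 : Coprod.snd (i1 G x) = 1 :=
    SemidirectProduct.inl_injective (h1.trans (map_one _).symm)
  rw [snd_i1] at h2
  have h3 : x = 1 := conj_free (X := Bool) true false (by decide) (h2.trans (map_one _).symm)
  rw [h3, map_one]

theorem gen_HH (hg : Function.Surjective g) (h0 : g 0 = 1) :
    Subgroup.closure {(HNNExtension.t : HH g), HNNExtension.of gb} = ⊤ := by
  obtain ⟨L, hL⟩ : ∃ L : Subgroup (HH g),
    L = Subgroup.closure {(HNNExtension.t : HH g), HNNExtension.of gb} := ⟨_, rfl⟩
  rw [← hL]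
  have ht : (HNNExtension.t : HH g) ∈ L := by
    rw [hL]; exact Subgroup.subset_closure (by simp)
  have hb : (HNNExtension.of gb : HH g) ∈ L := by
    rw [hL]; exact Subgroup.subset_closure (by simp)
  have key : ∀ x, (HNNExtension.of (i1 G x) : HH g) ∈ L → (HNNExtension.of (i2 g x) : HH g) ∈ L := by
    intro x hx
    have h1 : (HNNExtension.of (i2 g x) : HH g) =
        HNNExtension.t * HNNExtension.of (i1 G x) * HNNExtension.t⁻¹ := by
      rw [t_i1, mul_inv_cancel_right]
    rw [h1]
    exact L.mul_mem (L.mul_mem ht hx) (L.inv_mem ht)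
  have h1 : ∀ n, i1 G (FreeGroup.of n) = ga⁻¹ ^ n * gb * ga ^ n := fun n => by
    rw [i1, FreeGroup.lift_apply_of]
  have h2 : ∀ n, i2 g (FreeGroup.of n) = Coprod.inl (g n) * (gb⁻¹ ^ n * ga * gb ^ n) := fun n => by
    rw [i2, FreeGroup.lift_apply_of]
  have ha : (HNNExtension.of ga : HH g) ∈ L := by
    have h3 := key (FreeGroup.of 0) (by
      rw [h1, pow_zero, pow_zero, one_mul, mul_one]; exact hb)
    rwa [h2, h0, map_one, one_mul, pow_zero, pow_zero, one_mul, mul_one] at h3
  have hinl : ∀ x : G, (HNNExtension.of (Coprod.inl x) : HH g) ∈ L := by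
    intro x
    obtain ⟨n, rfl⟩ := hg x
    have h3 := key (FreeGroup.of n) (by
      rw [h1, map_mul, map_mul, map_pow, map_pow, map_inv]
      exact L.mul_mem (L.mul_mem (L.pow_mem (L.inv_mem ha) n) hb) (L.pow_mem ha n))
    rw [h2, map_mul] at h3
    have h4 : (HNNExtension.of (gb⁻¹ ^ n * ga * gb ^ n) : HH g) ∈ L := by
      rw [map_mul, map_mul, map_pow, map_pow, map_inv]
      exact L.mul_mem (L.mul_mem (L.pow_mem (L.inv_mem hb) n) ha) (L.pow_mem hb n)
    exact (Subgroup.mul_mem_cancel_right L h4).1 h3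
  have hinr : ∀ x : FreeGroup Bool, (HNNExtension.of (Coprod.inr x) : HH g) ∈ L := by
    intro x
    induction x using FreeGroup.induction_on with
    | C1 => rw [map_one, map_one]; exact L.one_mem
    | of c =>
      cases c
      · exact hb
      · exact ha
    | inv_of c hc => rw [map_inv, map_inv]; exact L.inv_mem hc
    | mul x y hx hy => rw [map_mul, map_mul]; exact L.mul_mem hx hy
  rw [Subgroup.eq_top_iff']
  intro x
  induction x using HNNExtension.induction_on with
  | of x =>
    induction x using Coprod.induction_on with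
    | inl x => exact hinl x
    | inr x => exact hinr x
    | mul x y hx hy => rw [map_mul]; exact L.mul_mem hx hy
  | t => exact ht
  | mul x y hx hy => exact L.mul_mem hx hy
  | inv x hx => exact L.inv_mem hx

end embed

variable {C : ∀ (G : Type) [Group G], Prop}

/-- countable groups in `C` embed in groups in `C` with two generators -/
theorem embed_two (hC : Cl C) {G : Type} [Group G] [Countable G] (hG : C G) :
    ∃ (H : Type) (_ : Group H) (x y : H) (f : G →* H), C H ∧ Function.Injective f ∧
      Subgroup.closure {x, y} = ⊤ := by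
  obtain ⟨g, hg⟩ := exists_surjective_nat G
  let g' : ℕ → G := fun n => if n = 0 then 1 else g (n - 1)
  have hg' : Function.Surjective g' := by
    intro x
    obtain ⟨n, hn⟩ := hg x
    exact ⟨n + 1, by simp [g', hn]⟩
  refine ⟨HH g', inferInstance, HNNExtension.t, HNNExtension.of gb,
    HNNExtension.of.comp Coprod.inl, C_HH g' hC hG, ?_, gen_HH g' hg' (by simp [g'])⟩
  intro x y hxy
  exact Coprod.inl_injective (HNNExtension.of_injective (ph g') hxy)

/-- finite presentations -/
abbrev Pr : Type := Σ n : ℕ, Finset (FreeGroup (Fin n))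

/-- the group of a finite presentation -/
abbrev PrG (p : Pr) : Type := PresentedGroup (p.2 : Set (FreeGroup (Fin p.1)))

instance cfree (n : ℕ) : Countable (FreeGroup (Fin n)) := by
  unfold FreeGroup
  infer_instance

theorem countable_coprodI {I : Type} [Countable I] (A : I → Type) [∀ i, Group (A i)]
    [∀ i, Countable (A i)] : Countable (CoprodI A) := by
  have h1 : Function.Surjective (Con.mk' (Monoid.CoprodI.Rel A |> conGen)) := Con.mk'_surjective
  have h2 : Countable (FreeMonoid (Σ i, A i)) := by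
    unfold FreeMonoid
    infer_instance
  exact h1.countable

instance countable_PrG (p : Pr) : Countable (PrG p) :=
  (QuotientGroup.mk'_surjective (Subgroup.normalClosure (p.2 : Set (FreeGroup (Fin p.1))))).countable

/-- the universal group -/
theorem universal (hC : Cl C) :
    ∃ (U : Type) (_ : Group U) (x y : U), C U ∧ Subgroup.closure {x, y} = ⊤ ∧
      ∀ (G : Type) [Group G], Group.IsFinitelyPresented G → C G →
        ∃ f : G →* U, Function.Injective f := by
  classical
  have : Countable (CoprodI (fun p : {p : Pr // C (PrG p)} => PrG p.1)) := countable_coprodI _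
  obtain ⟨U, iU, x, y, f, hU, hf, hxy⟩ := embed_two hC
    (G := CoprodI (fun p : {p : Pr // C (PrG p)} => PrG p.1))
    (hC.coprodI _ _ fun p => p.2)
  refine ⟨U, iU, x, y, hU, hxy, fun G _ hfp hG => ?_⟩
  obtain ⟨n, φ, hφ, S, hS, hSk⟩ := hfp.out
  have e : G ≃* PrG ⟨n, hS.toFinset⟩ := by
    refine (QuotientGroup.quotientKerEquivOfSurjective φ hφ).symm.trans
      (QuotientGroup.quotientMulEquivOfEq ?_)
    rw [← hSk, Set.Finite.coe_toFinset]
  have hp : C (PrG ⟨n, hS.toFinset⟩) := hC.equiv e hG
  refine ⟨(f.comp (CoprodI.of (M := fun p : {p : Pr // C (PrG p)} => PrG p.1)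
    (i := ⟨⟨n, hS.toFinset⟩, hp⟩))).comp e.toMonoidHom, ?_⟩
  exact (hf.comp (CoprodI.of_injective _)).comp e.injective

end Pool.Agent.K7.H29.EM
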