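import Pool.Agent.K7.H29.EM.Psi
import Pool.Agent.K7.H29.EM.Two

/-!
# Embeddings in finitely presented groups
-/

set_option autoImplicit false

namespace Pool.Agent.K7.H29.EM

open Monoid Group

section iso

variable {B P : Type} [Group B] [Group P] {i j : P →* B} (hi : Function.Injective i)
  (hj : Function.Injective j)

/-- the isomorphism of the two ranges -/
noncomputable def iso : i.range ≃* j.range :=
  (MonoidHom.ofInjective hi).symm.trans (MonoidHom.ofInjective hj)

theorem iso_apply (x : P) : iso hi hj ⟨i x, x, rfl⟩ = ⟨j x, x, rfl⟩ := by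
  have h3 : (MonoidHom.ofInjective hi).symm ⟨i x, x, rfl⟩ = x := by
    rw [MulEquiv.symm_apply_eq]
    rfl
  show (MonoidHom.ofInjective hj) ((MonoidHom.ofInjective hi).symm ⟨i x, x, rfl⟩) = _
  rw [h3]
  rfl

/-- the HNN extension -/
abbrev HX : Type := HNNExtension B i.range j.range (iso hi hj)

theorem t_i (x : P) : (HNNExtension.t : HX hi hj) * HNNExtension.of (i x) =
    HNNExtension.of (j x) * HNNExtension.t := by
  have h3 := HNNExtension.t_mul_of (φ := iso hi hj) ⟨i x, x, rfl⟩
  rw [iso_apply hi hj x] at h3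
  exact h3

/-- homomorphisms from the HNN extension -/
noncomputable def hx {K : Type} [Group K] (f : B →* K) (t : K) (h : ∀ x, t * f (i x) = f (j x) * t) :
    HX hi hj →* K :=
  HNNExtension.lift f t (by
    rintro ⟨_, x, rfl⟩
    rw [iso_apply hi hj x]
    exact h x)

theorem hx_of {K : Type} [Group K] (f : B →* K) (t : K) (h) (b : B) :
    hx hi hj f t h (HNNExtension.of b) = f b := HNNExtension.lift_of _ _ _ _

theorem hx_t {K : Type} [Group K] (f : B →* K) (t : K) (h) :
    hx hi hj f t h HNNExtension.t = t := HNNExtension.lift_t _ _ _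

/-- the HNN extension of a finitely presented group with finitely generated associated subgroups -/
theorem fp_hnn (hB : IsFinitelyPresented B) (hP : ∃ T : Set P, T.Finite ∧ Subgroup.closure T = ⊤) :
    IsFinitelyPresented (HX hi hj) := by
  obtain ⟨T, hT, hT'⟩ := hP
  let S : Set (Coprod B (FreeGroup Unit)) := (fun x : P => Coprod.inr (FreeGroup.of ()) *
    Coprod.inl (i x) * (Coprod.inr (FreeGroup.of ()))⁻¹ * (Coprod.inl (j x))⁻¹) '' T
  let e : Coprod B (FreeGroup Unit) →* Coprod B (FreeGroup Unit) ⧸ Subgroup.normalClosure S :=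
    QuotientGroup.mk' _
  have h1 : ∀ x, e (Coprod.inr (FreeGroup.of ())) * e (Coprod.inl (i x)) =
      e (Coprod.inl (j x)) * e (Coprod.inr (FreeGroup.of ())) := by
    intro x
    have hx : x ∈ Subgroup.closure T := by rw [hT']; exact Subgroup.mem_top x
    induction hx using Subgroup.closure_induction with
    | mem x hx =>
      have h : e (Coprod.inr (FreeGroup.of ()) * Coprod.inl (i x) *
          (Coprod.inr (FreeGroup.of ()))⁻¹ * (Coprod.inl (j x))⁻¹) = 1 :=
        (QuotientGroup.eq_one_iff _).2 (Subgroup.subset_normalClosure ⟨x, hx, rfl⟩)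
      rw [map_mul, map_inv, mul_inv_eq_one, map_mul, map_inv, mul_inv_eq_iff_eq_mul, map_mul] at h
      exact h
    | one => simp
    | mul x y _ _ hx hy =>
      rw [map_mul, map_mul, map_mul, map_mul, map_mul, map_mul, ← mul_assoc, hx, mul_assoc, hy,
        mul_assoc]
    | inv x _ hx =>
      rw [map_inv, map_inv, map_inv, map_inv, map_inv, map_inv, eq_inv_mul_iff_mul_eq, ← mul_assoc,
        ← hx, mul_inv_cancel_right]
  let back : HX hi hj →* Coprod B (FreeGroup Unit) ⧸ Subgroup.normalClosure S :=
    hx hi hj (e.comp Coprod.inl) (e (Coprod.inr (FreeGroup.of ()))) h1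
  refine fp_of_back (Γ := Coprod B (FreeGroup Unit)) (inferInstance)
    (Coprod.lift HNNExtension.of (FreeGroup.lift fun _ => HNNExtension.t)) ?_ S (hT.image _) ?_
    back ?_
  · intro x
    induction x using HNNExtension.induction_on with
    | of b => exact ⟨Coprod.inl b, Coprod.lift_apply_inl _ _ _⟩
    | t =>
      refine ⟨Coprod.inr (FreeGroup.of ()), ?_⟩
      rw [Coprod.lift_apply_inr, FreeGroup.lift_apply_of]
    | mul x y hx hy =>
      obtain ⟨x, rfl⟩ := hx
      obtain ⟨y, rfl⟩ := hy
      exact ⟨x * y, map_mul _ _ _⟩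
    | inv x hx =>
      obtain ⟨x, rfl⟩ := hx
      exact ⟨x⁻¹, map_inv _ _⟩
  · rintro _ ⟨x, _, rfl⟩
    simp only [map_mul, map_inv, Coprod.lift_apply_inl, Coprod.lift_apply_inr,
      FreeGroup.lift_apply_of]
    rw [t_i, mul_inv_cancel_right, mul_inv_cancel]
  · intro x
    have h4 : back.comp (Coprod.lift HNNExtension.of (FreeGroup.lift fun _ => HNNExtension.t)) =
        e := by
      apply Coprod.hom_ext
      · ext b
        rw [MonoidHom.comp_apply, MonoidHom.comp_apply, Coprod.lift_apply_inl]
        exact hx_of hi hj _ _ _ _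
      · apply FreeGroup.ext_hom
        intro b
        rw [MonoidHom.comp_apply, MonoidHom.comp_apply, Coprod.lift_apply_inr,
          FreeGroup.lift_apply_of]
        exact hx_t hi hj _ _ _
    exact DFunLike.congr_fun h4 x

end iso

section fibre

variable {F Q : Type} [Group F] [Group Q] (π : F →* Q)

/-- the fibre product -/
def fib : Subgroup (F × F) := (π.comp (MonoidHom.fst F F)).eqLocus (π.comp (MonoidHom.snd F F))

theorem mem_fib (x : F × F) : x ∈ fib π ↔ π x.1 = π x.2 := Iff.rfl

theorem fib_fg (T R : Set F) (hT : T.Finite) (hR : R.Finite)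
    (hT' : Subgroup.closure T = ⊤) (hR' : Subgroup.normalClosure R = π.ker) : (fib π).FG := by
  rw [Subgroup.fg_iff]
  refine ⟨(fun x => (x, x)) '' T ∪ (fun r => (r, 1)) '' R, ?_, (hT.image _).union (hR.image _)⟩
  apply le_antisymm
  · rw [Subgroup.closure_le]
    rintro _ (⟨x, _, rfl⟩ | ⟨r, hr, rfl⟩)
    · exact (mem_fib π _).2 rfl
    · have h1 : r ∈ π.ker := hR' ▸ Subgroup.subset_normalClosure hr
      exact (mem_fib π _).2 (((MonoidHom.mem_ker).1 h1).trans (map_one π).symm)
  · rintro ⟨u, v⟩ huv
    obtain ⟨M, hM⟩ : ∃ M, M = Subgroup.closure ((fun x : F => (x, x)) '' T ∪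
      (fun r : F => (r, (1 : F))) '' R) := ⟨_, rfl⟩
    rw [← hM]
    have h1 : ∀ x : F, (x, x) ∈ M := by
      intro x
      have hx : x ∈ Subgroup.closure T := by rw [hT']; exact Subgroup.mem_top x
      induction hx using Subgroup.closure_induction with
      | mem x hx => rw [hM]; exact Subgroup.subset_closure (Or.inl ⟨x, hx, rfl⟩)
      | one => exact M.one_mem
      | mul x y _ _ hx hy => exact M.mul_mem hx hy
      | inv x _ hx => exact M.inv_mem hx
    have hn : (M.comap (MonoidHom.inl F F)).Normal := by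
      refine ⟨fun n hn x => ?_⟩
      have h2 := M.mul_mem (M.mul_mem (h1 x) hn) (M.inv_mem (h1 x))
      have h3 : ((x, x) : F × F) * MonoidHom.inl F F n * (x, x)⁻¹ =
          MonoidHom.inl F F (x * n * x⁻¹) := by
        ext
        · rfl
        · show x * 1 * x⁻¹ = 1
          rw [mul_one, mul_inv_cancel]
      rw [h3] at h2
      exact h2
    have h2 : Subgroup.normalClosure R ≤ M.comap (MonoidHom.inl F F) := by
      apply Subgroup.normalClosure_le_normal
      intro r hr
      show (r, 1) ∈ M
      rw [hM]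
      exact Subgroup.subset_closure (Or.inr ⟨r, hr, rfl⟩)
    have h3 : u * v⁻¹ ∈ Subgroup.normalClosure R := by
      rw [hR', MonoidHom.mem_ker, map_mul, map_inv, mul_inv_eq_one]
      exact huv
    have h4 := M.mul_mem (h2 h3) (h1 v)
    have h5 : MonoidHom.inl F F (u * v⁻¹) * (v, v) = (u, v) := by
      ext
      · show u * v⁻¹ * v = u
        rw [inv_mul_cancel_right]
      · show 1 * v = v
        rw [one_mul]
    rwa [h5] at h4

end fibre

section rope

variable {F Q G : Type} [Group F] [Group Q] [Group G] (π : F →* Q) {ι : G →* Q}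
  (hι : Function.Injective ι) {m : ℕ} (g : Fin m → G) (u : Fin m → F)

/-- the words in the first factor -/
def wA : FreeGroup (Fin m) →* F × F := (MonoidHom.inl F F).comp (FreeGroup.lift u)

variable (hu : ∀ k, π (u k) = ι (g k))

include hu in
theorem pi_wA (w : FreeGroup (Fin m)) : π (wA u w).1 = ι (FreeGroup.lift g w) := by
  have h : (π.comp (MonoidHom.fst F F)).comp (wA u) = ι.comp (FreeGroup.lift g) := by
    apply FreeGroup.ext_hom
    intro k
    show π (FreeGroup.lift u (FreeGroup.of k)) = ι (FreeGroup.lift g (FreeGroup.of k))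
    rw [FreeGroup.lift_apply_of, FreeGroup.lift_apply_of, hu]
  exact DFunLike.congr_fun h w

/-- the projection to `G` -/
noncomputable def pG : (wA u).range →* G :=
  (MonoidHom.ofInjective hι).symm.toMonoidHom.comp
    (((π.comp (MonoidHom.fst F F)).comp (wA u).range.subtype).codRestrict ι.range (by
      rintro ⟨_, w, rfl⟩
      exact ⟨_, (pi_wA π g u hu w).symm⟩))

theorem pG_spec (x : (wA u).range) : ι (pG π hι g u hu x) = π (x : F × F).1 := by
  have h := MonoidHom.apply_ofInjective_symm hι
    (((π.comp (MonoidHom.fst F F)).comp (wA u).range.subtype).codRestrict ι.range (by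
      rintro ⟨_, w, rfl⟩
      exact ⟨_, (pi_wA π g u hu w).symm⟩) x)
  exact h

theorem pG_wA (w : FreeGroup (Fin m)) : pG π hι g u hu ⟨wA u w, w, rfl⟩ = FreeGroup.lift g w := by
  apply hι
  rw [pG_spec]
  exact pi_wA π g u hu w

theorem snd_range (x : (wA u).range) : (x : F × F).2 = 1 := by
  obtain ⟨_, w, rfl⟩ := x
  rfl

/-- the homomorphism on the double -/
noncomputable def th : Db ((fib π).subgroupOf (wA u).range) →* G :=
  dl _ (fun c => match c with
    | true => pG π hι g u hu
    | false => 1) (fun l hl => by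
      apply hι
      show ι (pG π hι g u hu l) = ι 1
      rw [pG_spec, map_one, (mem_fib π _).1 (Subgroup.mem_subgroupOf.1 hl), snd_range, map_one])

theorem th_true (x : (wA u).range) : th π hι g u hu (io _ true x) = pG π hι g u hu x :=
  dl_io _ _ _ _ _

theorem th_false (x : (wA u).range) : th π hι g u hu (io _ false x) = 1 :=
  dl_io _ _ _ _ _

/-- the first embedding -/
noncomputable def ri : Db ((fib π).subgroupOf (wA u).range) →* Db (fib π) × G :=
  (psi (fib π) (wA u).range).prod 1

/-- the second embedding -/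
noncomputable def rj : Db ((fib π).subgroupOf (wA u).range) →* Db (fib π) × G :=
  (psi (fib π) (wA u).range).prod (th π hι g u hu)

theorem ri_inj : Function.Injective (ri (G := G) π u) := by
  intro x y hxy
  exact psi_inj _ _ (congrArg Prod.fst hxy)

theorem rj_inj : Function.Injective (rj π hι g u hu) := by
  intro x y hxy
  exact psi_inj _ _ (congrArg Prod.fst hxy)

/-- the group of the rope trick -/
abbrev RK : Type := HX (ri_inj (G := G) π u) (rj_inj π hι g u hu)

variable {C : ∀ (G : Type) [Group G], Prop}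

theorem C_Db (hC : Cl C) (hF : C F) : C (Db (fib π)) := by
  refine hC.amalgam (fun _ : Bool => (fib π).subtype) (fun _ => Subtype.val_injective)
    (dl (fib π) (fun _ => MonoidHom.id (F × F)) (fun _ _ => rfl)) ?_
    (fun _ => hC.prod _ _ hF hF) (hC.prod _ _ hF hF)
  intro x y hxy
  apply Subtype.ext
  have h1 : ∀ x : fib π, dl (fib π) (fun _ => MonoidHom.id (F × F)) (fun _ _ => rfl)
      (PushoutI.base (fun _ : Bool => (fib π).subtype) x) = x := by
    intro x
    rw [← PushoutI.of_apply_eq_base (fun _ : Bool => (fib π).subtype) true x]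
    exact dl_io (fib π) _ _ _ _
  have h2 := h1 x
  rw [← h1 y]
  exact h2.symm.trans hxy

theorem C_RK (hC : Cl C) (hF : C F) (hG : C G) :
    C (RK π hι g u hu) := by
  refine hC.hnn _ _ _ _ _ (hx (ri_inj (G := G) π u) (rj_inj π hι g u hu)
    (MonoidHom.fst (Db (fib π)) G) 1 (fun x => by
      rw [one_mul, mul_one]
      rfl)) ?_ (hC.prod _ _ (C_Db π hC hF) hG) (C_Db π hC hF)
  rintro _ ⟨x, rfl⟩ hx1
  rw [hx_of] at hx1
  exact Prod.ext hx1 rfl

/-- the generators: those of `Db`, the stable letter and those of `G` -/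
noncomputable def gn : Coprod (Db (fib π)) (FreeGroup (Option (Fin m))) →* RK π hι g u hu :=
  Coprod.lift (HNNExtension.of.comp (MonoidHom.inl (Db (fib π)) G))
    (FreeGroup.lift fun o => match o with
      | none => HNNExtension.t
      | some k => HNNExtension.of (1, g k))

theorem gn_inl (d : Db (fib π)) : gn π hι g u hu (Coprod.inl d) = HNNExtension.of (d, 1) :=
  Coprod.lift_apply_inl _ _ _

theorem gn_t : gn π hι g u hu (Coprod.inr (FreeGroup.of none)) = HNNExtension.t := by
  rw [gn, Coprod.lift_apply_inr, FreeGroup.lift_apply_of]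

theorem gn_k (k : Fin m) : gn π hι g u hu (Coprod.inr (FreeGroup.of (some k))) =
    HNNExtension.of (1, g k) := by
  rw [gn, Coprod.lift_apply_inr, FreeGroup.lift_apply_of]

theorem gn_w (w : FreeGroup (Fin m)) : gn π hι g u hu (Coprod.inr (FreeGroup.map some w)) =
    HNNExtension.of (1, FreeGroup.lift g w) := by
  have h : (gn π hι g u hu).comp (Coprod.inr.comp (FreeGroup.map some)) =
      (HNNExtension.of.comp (MonoidHom.inr (Db (fib π)) G)).comp (FreeGroup.lift g) := by
    apply FreeGroup.ext_hom
    intro k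
    rw [MonoidHom.comp_apply, MonoidHom.comp_apply, FreeGroup.map.of, gn_k, MonoidHom.comp_apply,
      FreeGroup.lift_apply_of]
    rfl
  exact DFunLike.congr_fun h w

theorem gn_surj (hg : Subgroup.closure (Set.range g) = ⊤) :
    Function.Surjective (gn π hι g u hu) := by
  have hs : Function.Surjective (FreeGroup.lift g) := by
    rw [← MonoidHom.range_eq_top, FreeGroup.range_lift_eq_closure, hg]
  intro x
  induction x using HNNExtension.induction_on with
  | of b =>
    obtain ⟨d, y⟩ := b
    obtain ⟨w, rfl⟩ := hs y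
    refine ⟨Coprod.inl d * Coprod.inr (FreeGroup.map some w), ?_⟩
    rw [map_mul, gn_inl, gn_w, ← map_mul, Prod.mk_mul_mk, mul_one, one_mul]
  | t => exact ⟨_, gn_t π hι g u hu⟩
  | mul x y hx hy =>
    obtain ⟨x, rfl⟩ := hx
    obtain ⟨y, rfl⟩ := hy
    exact ⟨x * y, map_mul _ _ _⟩
  | inv x hx =>
    obtain ⟨x, rfl⟩ := hx
    exact ⟨x⁻¹, map_inv _ _⟩

/-- the relations -/
def rel (SD : Set (Db (fib π))) : Set (Coprod (Db (fib π)) (FreeGroup (Option (Fin m)))) :=
  ((fun p : Db (fib π) × Fin m => Coprod.inl p.1 * Coprod.inr (FreeGroup.of (some p.2)) *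
    (Coprod.inl p.1)⁻¹ * (Coprod.inr (FreeGroup.of (some p.2)))⁻¹) '' (SD ×ˢ Set.univ)) ∪
  (Set.range (fun k : Fin m => Coprod.inr (FreeGroup.of none) *
    Coprod.inl (io (fib π) true (u k, 1)) * (Coprod.inr (FreeGroup.of none))⁻¹ *
    (Coprod.inl (io (fib π) true (u k, 1)) * Coprod.inr (FreeGroup.of (some k)))⁻¹)) ∪
  (Set.range (fun k : Fin m => Coprod.inr (FreeGroup.of none) *
    Coprod.inl (io (fib π) false (u k, 1)) * (Coprod.inr (FreeGroup.of none))⁻¹ *
    (Coprod.inl (io (fib π) false (u k, 1)))⁻¹))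

theorem wA_of (k : Fin m) : wA u (FreeGroup.of k) = (u k, 1) := by
  show MonoidHom.inl F F (FreeGroup.lift u (FreeGroup.of k)) = _
  rw [FreeGroup.lift_apply_of]
  rfl

theorem t_true (w : FreeGroup (Fin m)) :
    (HNNExtension.t : RK π hι g u hu) * HNNExtension.of (io (fib π) true (wA u w), 1) =
      HNNExtension.of (io (fib π) true (wA u w), FreeGroup.lift g w) * HNNExtension.t := by
  have h := t_i (ri_inj (G := G) π u) (rj_inj π hι g u hu) (io _ true ⟨wA u w, w, rfl⟩)
  have h1 : ri (G := G) π u (io _ true ⟨wA u w, w, rfl⟩) = (io (fib π) true (wA u w), 1) := by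
    show (psi _ _ _, _) = _
    rw [psi_io]
    rfl
  have h2 : rj π hι g u hu (io _ true ⟨wA u w, w, rfl⟩) =
      (io (fib π) true (wA u w), FreeGroup.lift g w) := by
    show (psi _ _ _, th π hι g u hu _) = _
    rw [psi_io, th_true, pG_wA]
  rw [h1, h2] at h
  exact h

theorem t_false (w : FreeGroup (Fin m)) :
    (HNNExtension.t : RK π hι g u hu) * HNNExtension.of (io (fib π) false (wA u w), 1) =
      HNNExtension.of (io (fib π) false (wA u w), 1) * HNNExtension.t := by
  have h := t_i (ri_inj (G := G) π u) (rj_inj π hι g u hu) (io _ false ⟨wA u w, w, rfl⟩)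
  have h1 : ri (G := G) π u (io _ false ⟨wA u w, w, rfl⟩) = (io (fib π) false (wA u w), 1) := by
    show (psi _ _ _, _) = _
    rw [psi_io]
    rfl
  have h2 : rj π hι g u hu (io _ false ⟨wA u w, w, rfl⟩) =
      (io (fib π) false (wA u w), 1) := by
    show (psi _ _ _, th π hι g u hu _) = _
    rw [psi_io, th_false]
  rw [h1, h2] at h
  exact h

theorem rel_one (SD : Set (Db (fib π))) : ∀ x ∈ rel π u SD, gn π hι g u hu x = 1 := by
  rintro _ ((⟨⟨d, k⟩, _, rfl⟩ | ⟨k, rfl⟩) | ⟨k, rfl⟩)
  · simp only [map_mul, map_inv]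
    rw [gn_inl, gn_k, ← map_inv, ← map_inv, ← map_mul, ← map_mul, ← map_mul]
    simp
    exact map_one _
  · have h := t_true π hι g u hu (FreeGroup.of k)
    rw [wA_of, FreeGroup.lift_apply_of] at h
    simp only [map_mul, map_inv]
    rw [gn_inl, gn_k, gn_t, h, mul_inv_cancel_right, ← map_mul, mul_inv_eq_one]
    simp
  · have h := t_false π hι g u hu (FreeGroup.of k)
    rw [wA_of] at h
    simp only [map_mul, map_inv]
    rw [gn_inl, gn_t, h, mul_inv_cancel_right, mul_inv_cancel]

theorem fp_RK (hD : IsFinitelyPresented (Db (fib π))) (SD : Set (Db (fib π))) (hSD : SD.Finite)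
    (hSD' : Subgroup.closure SD = ⊤) (hg : Subgroup.closure (Set.range g) = ⊤) :
    IsFinitelyPresented (RK π hι g u hu) := by
  have hs : Function.Surjective (FreeGroup.lift g) := by
    rw [← MonoidHom.range_eq_top, FreeGroup.range_lift_eq_closure, hg]
  let Qt := Coprod (Db (fib π)) (FreeGroup (Option (Fin m))) ⧸ Subgroup.normalClosure (rel π u SD)
  let e : Coprod (Db (fib π)) (FreeGroup (Option (Fin m))) →* Qt := QuotientGroup.mk' _
  let eD : Db (fib π) →* Qt := e.comp Coprod.inl
  let eY : FreeGroup (Fin m) →* Qt := e.comp (Coprod.inr.comp (FreeGroup.map some))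
  let T : Qt := e (Coprod.inr (FreeGroup.of none))
  have heY : ∀ k, eY (FreeGroup.of k) = e (Coprod.inr (FreeGroup.of (some k))) := by
    intro k
    show e (Coprod.inr (FreeGroup.map some (FreeGroup.of k))) = _
    rw [FreeGroup.map.of]
  have c1 : ∀ d ∈ SD, ∀ k, Commute (eD d) (eY (FreeGroup.of k)) := by
    intro d hd k
    have h : e (Coprod.inl d * Coprod.inr (FreeGroup.of (some k)) * (Coprod.inl d)⁻¹ *
        (Coprod.inr (FreeGroup.of (some k)))⁻¹) = 1 :=
      (QuotientGroup.eq_one_iff _).2 (Subgroup.subset_normalClosure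
        (Or.inl (Or.inl ⟨(d, k), ⟨hd, Set.mem_univ _⟩, rfl⟩)))
    rw [map_mul, map_inv, mul_inv_eq_one, map_mul, map_inv, mul_inv_eq_iff_eq_mul, map_mul] at h
    rw [heY]
    exact h
  have c2 : ∀ d, ∀ k, Commute (eD d) (eY (FreeGroup.of k)) := by
    intro d k
    have hd : d ∈ Subgroup.closure SD := by rw [hSD']; exact Subgroup.mem_top d
    induction hd using Subgroup.closure_induction with
    | mem d hd => exact c1 d hd k
    | one => rw [map_one]; exact Commute.one_left _
    | mul x y _ _ hx hy => rw [map_mul]; exact hx.mul_left hy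
    | inv x _ hx => rw [map_inv]; exact hx.inv_left
  have c3 : ∀ d, ∀ w, Commute (eD d) (eY w) := by
    intro d w
    induction w using FreeGroup.induction_on with
    | C1 => rw [map_one]; exact Commute.one_right _
    | of k => exact c2 d k
    | inv_of k hk => rw [map_inv]; exact hk.inv_right
    | mul x y hx hy => rw [map_mul]; exact hx.mul_right hy
  have h1 : ∀ w, T * eD (io (fib π) true (wA u w)) * T⁻¹ =
      eD (io (fib π) true (wA u w)) * eY w := by
    have h : (MulAut.conj T).toMonoidHom.comp (eD.comp ((io (fib π) true).comp (wA u))) =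
        (MonoidHom.noncommCoprod eD eY c3).comp
          (((io (fib π) true).comp (wA u)).prod (MonoidHom.id _)) := by
      apply FreeGroup.ext_hom
      intro k
      show T * eD (io (fib π) true (wA u (FreeGroup.of k))) * T⁻¹ =
        eD (io (fib π) true (wA u (FreeGroup.of k))) * eY (FreeGroup.of k)
      rw [heY, wA_of]
      have h : e (Coprod.inr (FreeGroup.of none) *
          Coprod.inl (io (fib π) true (u k, 1)) * (Coprod.inr (FreeGroup.of none))⁻¹ *
          (Coprod.inl (io (fib π) true (u k, 1)) * Coprod.inr (FreeGroup.of (some k)))⁻¹) = 1 :=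
        (QuotientGroup.eq_one_iff _).2 (Subgroup.subset_normalClosure
          (Or.inl (Or.inr ⟨k, rfl⟩)))
      rw [map_mul, map_inv, mul_inv_eq_one, map_mul, map_inv, map_mul, map_mul] at h
      exact h
    intro w
    exact DFunLike.congr_fun h w
  have h2 : ∀ w, T * eD (io (fib π) false (wA u w)) * T⁻¹ =
      eD (io (fib π) false (wA u w)) := by
    have h : (MulAut.conj T).toMonoidHom.comp (eD.comp ((io (fib π) false).comp (wA u))) =
        eD.comp ((io (fib π) false).comp (wA u)) := by
      apply FreeGroup.ext_hom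
      intro k
      show T * eD (io (fib π) false (wA u (FreeGroup.of k))) * T⁻¹ =
        eD (io (fib π) false (wA u (FreeGroup.of k)))
      rw [wA_of]
      have h : e (Coprod.inr (FreeGroup.of none) *
          Coprod.inl (io (fib π) false (u k, 1)) * (Coprod.inr (FreeGroup.of none))⁻¹ *
          (Coprod.inl (io (fib π) false (u k, 1)))⁻¹) = 1 :=
        (QuotientGroup.eq_one_iff _).2 (Subgroup.subset_normalClosure
          (Or.inr ⟨k, rfl⟩))
      rw [map_mul, map_inv, mul_inv_eq_one, map_mul, map_inv, map_mul] at h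
      exact h
    intro w
    exact DFunLike.congr_fun h w
  have h3 : ∀ w, FreeGroup.lift g w = 1 → eY w = 1 := by
    intro w hw
    have h4 : wA u w ∈ fib π := by
      rw [mem_fib, pi_wA π g u hu, hw, map_one]
      exact (map_one π).symm
    have h5 := h1 w
    rw [io_eq (fib π) h4 true false, h2 w] at h5
    exact mul_eq_left.1 h5.symm
  let eG : G →* Qt := (FreeGroup.lift g).liftOfSurjective hs ⟨eY, fun w hw => h3 w hw⟩
  have heG : ∀ w, eG (FreeGroup.lift g w) = eY w := fun w =>
    (FreeGroup.lift g).liftOfRightInverse_comp_apply _ _ ⟨eY, fun w hw => h3 w hw⟩ w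
  have c4 : ∀ d y, Commute (eD d) (eG y) := by
    intro d y
    obtain ⟨w, rfl⟩ := hs y
    rw [heG]
    exact c3 d w
  let back : RK π hι g u hu →* Qt :=
    hx (ri_inj (G := G) π u) (rj_inj π hι g u hu) (MonoidHom.noncommCoprod eD eG c4) T (by
      have h : (MulAut.conj T).toMonoidHom.comp ((MonoidHom.noncommCoprod eD eG c4).comp
          (ri (G := G) π u)) = (MonoidHom.noncommCoprod eD eG c4).comp (rj π hι g u hu) := by
        apply Db_ext
        rintro (_ | _) ⟨_, w, rfl⟩
        · show T * (eD (psi (fib π) (wA u).range (io _ false ⟨wA u w, w, rfl⟩)) * eG 1) * T⁻¹ =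
            eD (psi (fib π) (wA u).range (io _ false ⟨wA u w, w, rfl⟩)) *
              eG (th π hι g u hu (io _ false ⟨wA u w, w, rfl⟩))
          rw [psi_io, th_false, map_one, mul_one]
          exact h2 w
        · show T * (eD (psi (fib π) (wA u).range (io _ true ⟨wA u w, w, rfl⟩)) * eG 1) * T⁻¹ =
            eD (psi (fib π) (wA u).range (io _ true ⟨wA u w, w, rfl⟩)) *
              eG (th π hι g u hu (io _ true ⟨wA u w, w, rfl⟩))
          rw [psi_io, th_true, map_one, mul_one, pG_wA, heG]
          exact h1 w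
      intro x
      have h6 := DFunLike.congr_fun h x
      rw [← mul_inv_eq_iff_eq_mul]
      exact h6)
  have : IsFinitelyPresented (Db (fib π)) := hD
  refine fp_of_back (Γ := Coprod (Db (fib π)) (FreeGroup (Option (Fin m)))) (inferInstance)
    (gn π hι g u hu) (gn_surj π hι g u hu hg) (rel π u SD) ?_ (rel_one π hι g u hu SD) back ?_
  · exact (((hSD.prod Set.finite_univ).image _).union (Set.finite_range _)).union
      (Set.finite_range _)
  · intro x
    have h4 : back.comp (gn π hι g u hu) = e := by
      apply Coprod.hom_ext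
      · refine MonoidHom.ext fun d => ?_
        rw [MonoidHom.comp_apply, MonoidHom.comp_apply, gn_inl]
        refine (hx_of _ _ _ _ _ _).trans ?_
        show eD d * eG 1 = _
        rw [map_one, mul_one]
      · apply FreeGroup.ext_hom
        rintro (_ | k)
        · rw [MonoidHom.comp_apply, MonoidHom.comp_apply, gn_t]
          exact hx_t _ _ _ _ _
        · rw [MonoidHom.comp_apply, MonoidHom.comp_apply, gn_k]
          refine (hx_of _ _ _ _ _ _).trans ?_
          show eD 1 * eG (g k) = _
          rw [map_one, one_mul]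
          have h5 := heG (FreeGroup.of k)
          rw [FreeGroup.lift_apply_of] at h5
          rw [h5, heY]
          rfl
    exact DFunLike.congr_fun h4 x

end rope

end Pool.Agent.K7.H29.EM
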